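import Pool.Agent.MP_259edd_an.FiniteApprox

set_option autoImplicit false

namespace Pool.Agent.MP_259edd_an

open Finset Filter Topology

universe u

/-- The consequences of the universal property used in the argument, in the language of
normed groups (the group norm is the `p`-th power of the `p`-norm). -/
structure Core (p : ℝ) {M : Type u} [MetricSpace M] (o : M) {F : Type u} [NormedAddCommGroup F]
    [Module ℝ F] (δ : M → F) : Prop where
  hp0 : 0 < p
  hp1 : p < 1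
  hsmul : ∀ (c : ℝ) (x : F), ‖c • x‖ = |c| ^ p * ‖x‖
  delta_o : δ o = 0
  delta_lip : ∀ v w, ‖δ v - δ w‖ ≤ dist v w ^ p
  dense : ∀ x : F, ∀ ε > 0, ∃ y ∈ Submodule.span ℝ (Set.range δ), ‖x - y‖ < ε
  fin_rep : ∀ y ∈ Submodule.span ℝ (Set.range δ), ∀ ε > 0, ∃ α : (M × M) →₀ ℝ,
    α.sum (fun e c => (|c| * dist e.1 e.2) ^ p) < ‖y‖ + ε ∧
      y = α.sum (fun e c => c • (δ e.1 - δ e.2))
  funct : ∀ g : M → ℝ, g o = 0 → ∀ L : ℝ, 0 ≤ L → (∀ v w, |g v - g w| ≤ L * dist v w) →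
    ∃ T : F →ₗ[ℝ] ℝ, (∀ v, T (δ v) = g v) ∧ ∀ z, |T z| ≤ L * ‖z‖ ^ (1 / p)
  mult : ∀ φ : M → ℝ, ∀ C : ℝ, 0 ≤ C → (∀ v w, ‖φ v • δ v - φ w • δ w‖ ≤ C * dist v w ^ p) →
    ∃ W : F →ₗ[ℝ] F, (∀ v, W (δ v) = φ v • δ v) ∧ ∀ z, ‖W z‖ ≤ C * ‖z‖

variable {p : ℝ} {M : Type u} [MetricSpace M] {o : M} {F : Type u} [NormedAddCommGroup F]
  [Module ℝ F] {δ : M → F}

/-- A functional bounded by a multiple of `‖z‖ ^ (1/p)` is continuous. -/
lemma continuous_of_bound (hp0 : 0 < p) (T : F →ₗ[ℝ] ℝ) (L : ℝ)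
    (hT : ∀ z, |T z| ≤ L * ‖z‖ ^ (1 / p)) : Continuous T := by
  refine continuous_of_continuousAt_zero T ?_
  have h1 : Tendsto (fun z : F => L * ‖z‖ ^ (1 / p)) (𝓝 0) (𝓝 0) := by
    have h2 : Tendsto (fun z : F => ‖z‖ ^ (1 / p)) (𝓝 0) (𝓝 ((0 : ℝ) ^ (1 / p))) := by
      refine Tendsto.rpow_const ?_ (Or.inr (one_div_pos.mpr hp0).le)
      simpa using (continuous_norm (E := F)).tendsto 0
    have h3 : (0 : ℝ) ^ (1 / p) = 0 := Real.zero_rpow (one_div_pos.mpr hp0).ne'
    rw [h3] at h2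
    simpa using h2.const_mul L
  rw [ContinuousAt, map_zero]
  exact squeeze_zero_norm (fun z => by simpa using hT z) h1

/-- Every element is an `ℓ_p` combination of elementary molecules. -/
lemma Core.rep (h : Core p o δ) [CompleteSpace F] (x : F) : ∃ a : ℕ × (M × M) → ℝ,
    Summable (fun i => (|a i| * dist i.2.1 i.2.2) ^ p) ∧
      HasSum (fun i => a i • (δ i.2.1 - δ i.2.2)) x := by
  have hpos : ∀ k : ℕ, (0 : ℝ) < (1 / 2) ^ k := fun k => by positivity
  choose y hy hxy using fun k : ℕ => h.dense x ((1 / 2) ^ k) (hpos k)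
  let z : ℕ → F := fun k => match k with
    | 0 => y 0
    | k + 1 => y (k + 1) - y k
  have hz : ∀ k, z k ∈ Submodule.span ℝ (Set.range δ) := by
    intro k
    cases k with
    | zero => exact hy 0
    | succ k => exact Submodule.sub_mem _ (hy (k + 1)) (hy k)
  have hznorm : ∀ k, ‖z (k + 1)‖ ≤ 2 * (1 / 2) ^ k := by
    intro k
    have h1 : z (k + 1) = (x - y k) - (x - y (k + 1)) := by
      change y (k + 1) - y k = _
      abel
    rw [h1]
    have h2 := norm_sub_le (x - y k) (x - y (k + 1))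
    have h3 := hxy k
    have h4 := hxy (k + 1)
    have h5 : (1 / 2 : ℝ) ^ (k + 1) ≤ (1 / 2) ^ k :=
      pow_le_pow_of_le_one (by norm_num) (by norm_num) (by omega)
    linarith
  choose α hα1 hα2 using fun k : ℕ => h.fin_rep (z k) (hz k) ((1 / 2) ^ k) (hpos k)
  let a : ℕ × (M × M) → ℝ := fun i => α i.1 i.2
  have hp0 := h.hp0
  have hnn : ∀ i : ℕ × (M × M), 0 ≤ (|a i| * dist i.2.1 i.2.2) ^ p := fun i => by positivity
  have hfib : ∀ k, HasSum (fun e : M × M => (|a (k, e)| * dist e.1 e.2) ^ p)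
      ((α k).sum (fun e c => (|c| * dist e.1 e.2) ^ p)) := by
    intro k
    refine hasSum_sum_of_ne_finset_zero fun e he => ?_
    have : α k e = 0 := Finsupp.notMem_support_iff.mp he
    simp only [a, this, abs_zero, zero_mul]
    exact Real.zero_rpow hp0.ne'
  have hsum : Summable (fun i : ℕ × (M × M) => (|a i| * dist i.2.1 i.2.2) ^ p) := by
    rw [summable_prod_of_nonneg hnn]
    refine ⟨fun k => (hfib k).summable, ?_⟩
    have h1 : ∀ k, ∑' e, (|a (k, e)| * dist e.1 e.2) ^ p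
        = (α k).sum (fun e c => (|c| * dist e.1 e.2) ^ p) := fun k => (hfib k).tsum_eq
    simp only [h1]
    rw [← summable_nat_add_iff 1]
    refine Summable.of_nonneg_of_le (fun k => ?_) (fun k => ?_)
      ((summable_geometric_two).mul_left 3)
    · exact Finset.sum_nonneg fun e _ => by positivity
    · have h2 := hα1 (k + 1)
      have h3 := hznorm k
      have h5 : (1 / 2 : ℝ) ^ (k + 1) ≤ (1 / 2) ^ k :=
        pow_le_pow_of_le_one (by norm_num) (by norm_num) (by omega)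
      linarith
  refine ⟨a, hsum, ?_⟩
  have hbound : ∀ i : ℕ × (M × M), ‖a i • (δ i.2.1 - δ i.2.2)‖ ≤
      (|a i| * dist i.2.1 i.2.2) ^ p := by
    intro i
    rw [h.hsmul, Real.mul_rpow (abs_nonneg _) dist_nonneg]
    exact mul_le_mul_of_nonneg_left (h.delta_lip _ _) (Real.rpow_nonneg (abs_nonneg _) _)
  have hsF : Summable (fun i : ℕ × (M × M) => a i • (δ i.2.1 - δ i.2.2)) :=
    Summable.of_norm_bounded hsum hbound
  obtain ⟨s, hs⟩ := hsF
  have hfibF : ∀ k, HasSum (fun e : M × M => a (k, e) • (δ e.1 - δ e.2)) (z k) := by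
    intro k
    rw [hα2 k]
    refine hasSum_sum_of_ne_finset_zero fun e he => ?_
    have : α k e = 0 := Finsupp.notMem_support_iff.mp he
    simp only [a, this, zero_smul]
  have h1 : HasSum z s := hs.prod_fiberwise hfibF
  have h2 : Tendsto (fun n => ∑ k ∈ range n, z k) atTop (𝓝 s) := h1.tendsto_sum_nat
  have h3 : ∀ n, ∑ k ∈ range (n + 1), z k = y n := by
    intro n
    induction n with
    | zero => simp [z]
    | succ n ih =>
      rw [Finset.sum_range_succ, ih]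
      change y n + (y (n + 1) - y n) = y (n + 1)
      abel
  have h4 : Tendsto y atTop (𝓝 s) := by
    have := (tendsto_add_atTop_iff_nat 1).mpr h2
    simpa only [h3] using this
  have h5 : Tendsto y atTop (𝓝 x) := by
    rw [tendsto_iff_norm_sub_tendsto_zero]
    refine squeeze_zero (fun n => norm_nonneg _) (fun n => ?_)
      (tendsto_pow_atTop_nhds_zero_of_lt_one (r := (1 / 2 : ℝ)) (by norm_num) (by norm_num))
    rw [norm_sub_rev]
    exact (hxy n).le
  have : s = x := tendsto_nhds_unique h4 h5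
  rw [← this]
  exact hs


/-- The tail of an `ℓ_p` family below a threshold tends to zero with the threshold. -/
lemma exists_threshold {ι : Type*} (b : ι → ℝ) (hb : ∀ i, 0 ≤ b i) (hp0 : 0 < p)
    (hs : Summable fun i => b i ^ p) (s : ℝ) (hs0 : 0 < s) : ∃ θ : ℝ, 0 < θ ∧ θ ≤ 1 ∧
      ∑' i, (if b i ≤ θ then b i ^ p else 0) < s := by
  have h1 : Tendsto (fun θ : ℝ => ∑' i, (if b i ≤ θ then b i ^ p else 0)) (𝓝[>] 0)
      (𝓝 (∑' _ : ι, (0 : ℝ))) := by
    refine tendsto_tsum_of_dominated_convergence hs (fun i => ?_) ?_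
    · rcases (hb i).eq_or_lt with h | h
      · have h2 : ∀ θ : ℝ, (if b i ≤ θ then b i ^ p else 0) = 0 := by
          intro θ
          rw [← h, Real.zero_rpow hp0.ne']; simp
        simp only [h2]
        exact tendsto_const_nhds
      · refine Tendsto.congr' (f₁ := fun _ => (0 : ℝ)) ?_ tendsto_const_nhds
        have : ∀ᶠ θ : ℝ in 𝓝[>] 0, θ < b i :=
          nhdsWithin_le_nhds (Iio_mem_nhds h)
        filter_upwards [this] with θ hθ
        rw [if_neg (not_le.mpr hθ)]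
    · filter_upwards with θ i
      have := Real.rpow_nonneg (hb i) p
      split_ifs
      · rw [Real.norm_of_nonneg this]
      · simpa using this
  rw [tsum_zero] at h1
  have h2 : ∀ᶠ θ : ℝ in 𝓝[>] 0, ∑' i, (if b i ≤ θ then b i ^ p else 0) < s :=
    h1.eventually (Iio_mem_nhds hs0)
  have h3 : ∀ᶠ θ : ℝ in 𝓝[>] 0, θ ≤ 1 :=
    nhdsWithin_le_nhds (Iic_mem_nhds (by norm_num))
  have h4 : ∀ᶠ θ : ℝ in 𝓝[>] 0, 0 < θ := self_mem_nhdsWithin
  obtain ⟨θ, h5, h6, h7⟩ := (h2.and (h3.and h4)).exists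
  exact ⟨θ, h7, h6, h5⟩

lemma exists_small (hp0 : 0 < p) (C : ℝ) (ε : ℝ) (hε : 0 < ε) :
    ∃ s : ℝ, 0 < s ∧ s + C * (2 * (2 * s)) ^ p < ε := by
  have h1 : Tendsto (fun s : ℝ => s + C * (2 * (2 * s)) ^ p) (𝓝 0)
      (𝓝 (0 + C * (2 * (2 * 0)) ^ p)) := by
    refine tendsto_id.add (Tendsto.const_mul C ?_)
    refine Tendsto.rpow_const ?_ (Or.inr hp0.le)
    exact (tendsto_id.const_mul 2).const_mul 2
  rw [mul_zero, mul_zero, Real.zero_rpow hp0.ne', mul_zero, add_zero] at h1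
  have h2 : ∀ᶠ s : ℝ in 𝓝[>] 0, s + C * (2 * (2 * s)) ^ p < ε :=
    nhdsWithin_le_nhds (h1.eventually (Iio_mem_nhds hε))
  have h4 : ∀ᶠ s : ℝ in 𝓝[>] 0, 0 < s := self_mem_nhdsWithin
  obtain ⟨s, h5, h6⟩ := (h2.and h4).exists
  exact ⟨s, h6, h5⟩

/-- The arithmetic of the exponents. -/
lemma final_bound (hp0 : 0 < p) (hp1 : p < 1) {S θ s G : ℝ} (hS : 0 ≤ S) (hθ0 : 0 < θ)
    (hθ1 : θ ≤ 1) (hs0 : 0 < s) (hG : G * θ ^ p ≤ S) {n : ℕ} (hV : (n : ℝ) ≤ 2 * G) :
    ((n : ℝ) + 1) ^ (1 - p) * (2 * (θ ^ (1 - p) * (2 * s))) ^ p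
      ≤ (2 * S + 1) ^ (1 - p) * (2 * (2 * s)) ^ p := by
  have h1 : (n : ℝ) + 1 ≤ (2 * S + 1) * θ ^ (-p) := by
    have h2 : G ≤ S * θ ^ (-p) := by
      rw [Real.rpow_neg hθ0.le, ← div_eq_mul_inv, le_div_iff₀ (Real.rpow_pos_of_pos hθ0 p)]
      exact hG
    have h3 : 1 ≤ θ ^ (-p) := Real.one_le_rpow_of_pos_of_le_one_of_nonpos hθ0 hθ1 (by linarith)
    nlinarith
  have h2 : ((n : ℝ) + 1) ^ (1 - p) ≤ (2 * S + 1) ^ (1 - p) * θ ^ (-p * (1 - p)) := by
    calc ((n : ℝ) + 1) ^ (1 - p) ≤ ((2 * S + 1) * θ ^ (-p)) ^ (1 - p) :=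
          Real.rpow_le_rpow (by positivity) h1 (by linarith)
      _ = (2 * S + 1) ^ (1 - p) * θ ^ (-p * (1 - p)) := by
          rw [Real.mul_rpow (by positivity) (Real.rpow_nonneg hθ0.le _),
            ← Real.rpow_mul hθ0.le]
  have h3 : (2 * (θ ^ (1 - p) * (2 * s))) ^ p = θ ^ (p * (1 - p)) * (2 * (2 * s)) ^ p := by
    have : 2 * (θ ^ (1 - p) * (2 * s)) = θ ^ (1 - p) * (2 * (2 * s)) := by ring
    rw [this, Real.mul_rpow (Real.rpow_nonneg hθ0.le _) (by linarith), ← Real.rpow_mul hθ0.le,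
      mul_comm (1 - p) p]
  have h5 : 0 ≤ (2 * (θ ^ (1 - p) * (2 * s))) ^ p :=
    Real.rpow_nonneg (mul_nonneg (by norm_num)
      (mul_nonneg (Real.rpow_nonneg hθ0.le _) (by linarith))) _
  calc ((n : ℝ) + 1) ^ (1 - p) * (2 * (θ ^ (1 - p) * (2 * s))) ^ p
      ≤ ((2 * S + 1) ^ (1 - p) * θ ^ (-p * (1 - p))) * (2 * (θ ^ (1 - p) * (2 * s))) ^ p :=
        mul_le_mul_of_nonneg_right h2 h5
    _ = (2 * S + 1) ^ (1 - p) * (θ ^ (-p * (1 - p)) * θ ^ (p * (1 - p)))
        * (2 * (2 * s)) ^ p := by rw [h3]; ring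
    _ = (2 * S + 1) ^ (1 - p) * (2 * (2 * s)) ^ p := by
        rw [← Real.rpow_add hθ0]
        have : -p * (1 - p) + p * (1 - p) = 0 := by ring
        rw [this, Real.rpow_zero, mul_one]

/-- If all functionals given by `1`-Lipschitz functions vanishing on `K` kill `x`, then `x` is in
the closed span of `δ '' K`. -/
theorem Core.mem_closure_of_annihilate (h : Core p o δ) [CompleteSpace F] (K : Set M)
    (hK : IsClosed K) (hoK : o ∈ K) (x : F)
    (hx : ∀ g : M → ℝ, LipschitzWith 1 g → (∀ k ∈ K, g k = 0) → ∀ T : F →ₗ[ℝ] ℝ,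
      (∀ v, T (δ v) = g v) → (∀ z, |T z| ≤ 1 * ‖z‖ ^ (1 / p)) → T x = 0) :
    ∀ ε > 0, ∃ e ∈ Submodule.span ℝ (δ '' K), ‖x - e‖ < ε := by
  classical
  intro ε hε
  have hp0 := h.hp0
  have hp1 := h.hp1
  obtain ⟨a, hsum, hasum⟩ := h.rep x
  let b : ℕ × (M × M) → ℝ := fun i => |a i| * dist i.2.1 i.2.2
  have hb : ∀ i, 0 ≤ b i := fun i => by positivity
  have hsum' : Summable fun i => b i ^ p := hsum
  let S : ℝ := ∑' i, b i ^ p
  have hS : 0 ≤ S := tsum_nonneg fun i => Real.rpow_nonneg (hb i) p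
  let C : ℝ := (2 * S + 1) ^ (1 - p)
  obtain ⟨s, hs0, hsε⟩ := exists_small hp0 C ε hε
  obtain ⟨θ, hθ0, hθ1, hθs⟩ := exists_threshold b hb hp0 hsum' s hs0
  set σ : ℝ := ∑' i, (if b i ≤ θ then b i ^ p else 0) with hσdef
  have hf_nonneg : ∀ i, 0 ≤ (if b i ≤ θ then b i ^ p else 0) := fun i => by
    split_ifs
    · exact Real.rpow_nonneg (hb i) p
    · exact le_rfl
  have hf_sum : Summable (fun i => (if b i ≤ θ then b i ^ p else 0)) := by
    refine Summable.of_nonneg_of_le hf_nonneg (fun i => ?_) hsum'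
    split_ifs
    · exact le_rfl
    · exact Real.rpow_nonneg (hb i) p
  have hσ0 : 0 ≤ σ := tsum_nonneg hf_nonneg
  -- the finite set of large terms
  have hfin : {i | θ < b i}.Finite := by
    have h1 : ∀ᶠ i in cofinite, b i ^ p < θ ^ p :=
      hsum'.tendsto_cofinite_zero.eventually (Iio_mem_nhds (Real.rpow_pos_of_pos hθ0 p))
    rw [eventually_cofinite] at h1
    refine h1.subset fun i hi => ?_
    simp only [Set.mem_ofPred_eq, not_lt] at hi ⊢
    exact Real.rpow_le_rpow hθ0.le hi.le hp0.le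
  let G : Finset (ℕ × (M × M)) := hfin.toFinset
  have hG : ∀ i, i ∈ G ↔ θ < b i := fun i => by simp [G]
  have hGcard : (G.card : ℝ) * θ ^ p ≤ S := by
    calc (G.card : ℝ) * θ ^ p = ∑ _i ∈ G, θ ^ p := by rw [Finset.sum_const, nsmul_eq_mul]
      _ ≤ ∑ i ∈ G, b i ^ p := Finset.sum_le_sum fun i hi =>
          Real.rpow_le_rpow hθ0.le ((hG i).mp hi).le hp0.le
      _ ≤ S := hsum'.sum_le_tsum G fun i _ => Real.rpow_nonneg (hb i) p
  let c : ℕ × (M × M) → F := fun i => a i • (δ i.2.1 - δ i.2.2)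
  let y : F := ∑ i ∈ G, c i
  have hcbound : ∀ i, ‖c i‖ ≤ b i ^ p := by
    intro i
    simp only [c, b]
    rw [h.hsmul, Real.mul_rpow (abs_nonneg _) dist_nonneg]
    exact mul_le_mul_of_nonneg_left (h.delta_lip _ _) (Real.rpow_nonneg (abs_nonneg _) _)
  have htail : HasSum (fun i => if i ∈ G then 0 else c i) (x - y) := by
    have h1 : HasSum (fun i => if i ∈ G then c i else 0) y := by
      have : y = ∑ i ∈ G, (if i ∈ G then c i else 0) :=
        Finset.sum_congr rfl fun i hi => by rw [if_pos hi]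
      rw [this]
      refine hasSum_sum_of_ne_finset_zero fun i hi => ?_
      rw [if_neg hi]
    have h2 := hasum.sub h1
    refine h2.congr_fun fun i => ?_
    by_cases hi : i ∈ G <;> simp [hi, c]
  have hxy : ‖x - y‖ ≤ σ := by
    rw [← htail.tsum_eq]
    refine tsum_of_norm_bounded hf_sum.hasSum fun i => ?_
    by_cases hi : i ∈ G
    · rw [if_pos hi, norm_zero]; exact hf_nonneg i
    · rw [if_neg hi, if_pos (not_lt.mp (fun h' => hi ((hG i).mpr h')))]
      exact hcbound i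
  have hTy : ∀ g : M → ℝ, LipschitzWith 1 g → (∀ k ∈ K, g k = 0) → ∀ T : F →ₗ[ℝ] ℝ,
      (∀ v, T (δ v) = g v) → (∀ z, |T z| ≤ 1 * ‖z‖ ^ (1 / p)) → |T y| ≤ θ ^ (1 - p) * σ := by
    intro g hg hgK T hTδ hTb
    have h0 := hx g hg hgK T hTδ hTb
    have h1 : T y = - T (x - y) := by rw [map_sub, h0]; ring
    rw [h1, abs_neg]
    have hcont := continuous_of_bound hp0 T 1 hTb
    have h2 : HasSum (fun i => T (if i ∈ G then 0 else c i)) (T (x - y)) :=
      htail.map T hcont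
    rw [← h2.tsum_eq, ← Real.norm_eq_abs]
    refine tsum_of_norm_bounded (hf_sum.hasSum.mul_left _) fun i => ?_
    by_cases hi : i ∈ G
    · rw [if_pos hi, map_zero, norm_zero]
      exact mul_nonneg (Real.rpow_nonneg hθ0.le _) (hf_nonneg i)
    · have hbi : b i ≤ θ := not_lt.mp (fun h' => hi ((hG i).mpr h'))
      rw [if_neg hi, if_pos hbi]
      simp only [c]
      rw [map_smul, map_sub, hTδ, hTδ, smul_eq_mul, norm_mul, Real.norm_eq_abs, Real.norm_eq_abs]
      have h3 : |g i.2.1 - g i.2.2| ≤ dist i.2.1 i.2.2 := by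
        have := hg.dist_le_mul i.2.1 i.2.2
        rwa [Real.dist_eq, NNReal.coe_one, one_mul] at this
      calc |a i| * |g i.2.1 - g i.2.2| ≤ b i :=
            mul_le_mul_of_nonneg_left h3 (abs_nonneg _)
        _ ≤ θ ^ (1 - p) * b i ^ p := by
            rcases (hb i).eq_or_lt with h4 | h4
            · rw [← h4, Real.zero_rpow hp0.ne', mul_zero]
            · calc b i = b i ^ (1 - p) * b i ^ p := by
                    rw [← Real.rpow_add h4]; simp
                _ ≤ θ ^ (1 - p) * b i ^ p :=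
                    mul_le_mul_of_nonneg_right
                      (Real.rpow_le_rpow h4.le hbi (by linarith)) (Real.rpow_nonneg h4.le _)
  -- coefficients of `y`
  let μ : M →₀ ℝ := ∑ i ∈ G, (Finsupp.single i.2.1 (a i) - Finsupp.single i.2.2 (a i))
  let V : Finset M := G.image (fun i => i.2.1) ∪ G.image (fun i => i.2.2)
  have hVcard : V.card ≤ 2 * G.card := by
    refine (Finset.card_union_le _ _).trans ?_
    have h1 := Finset.card_image_le (s := G) (f := fun i => i.2.1)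
    have h2 := Finset.card_image_le (s := G) (f := fun i => i.2.2)
    omega
  have hμV : μ.support ⊆ V := by
    intro v hv
    by_contra hvV
    simp only [V, Finset.mem_union, Finset.mem_image, not_or, not_exists, not_and] at hvV
    refine Finsupp.mem_support_iff.mp hv ?_
    simp only [μ, Finsupp.coe_finsetSum, Finset.sum_apply]
    refine Finset.sum_eq_zero fun i hi => ?_
    rw [Finsupp.sub_apply, Finsupp.single_eq_of_ne (Ne.symm (hvV.1 i hi)),
      Finsupp.single_eq_of_ne (Ne.symm (hvV.2 i hi)), sub_zero]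
  have hyμ : y = ∑ v ∈ V, μ v • δ v := by
    have h1 : Finsupp.linearCombination ℝ δ μ = y := by
      simp only [μ, map_sum, map_sub, Finsupp.linearCombination_single, y, c, smul_sub]
    rw [← h1, Finsupp.linearCombination_apply, Finsupp.sum_of_support_subset μ hμV _ (by simp)]
  let V' : Finset M := V.filter fun v => v ∉ K
  have hV' : ∀ v ∈ V', v ∉ K := fun v hv => (Finset.mem_filter.mp hv).2
  have hV'card : (V'.card : ℝ) ≤ 2 * G.card := by
    have := (Finset.card_filter_le V fun v => v ∉ K).trans hVcard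
    exact_mod_cast this
  let y1 : F := ∑ v ∈ V.filter (fun v => ¬ v ∉ K), μ v • δ v
  let y2 : F := ∑ v ∈ V', μ v • δ v
  have hy12 : y = y2 + y1 := by
    rw [hyμ]
    exact (Finset.sum_filter_add_sum_filter_not V (fun v => v ∉ K) _).symm
  have hy1 : y1 ∈ Submodule.span ℝ (δ '' K) := by
    refine Submodule.sum_mem _ fun v hv => Submodule.smul_mem _ _ (Submodule.subset_span ?_)
    exact ⟨v, not_not.mp (Finset.mem_filter.mp hv).2, rfl⟩
  let t : ℝ := θ ^ (1 - p) * (2 * s)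
  have ht : 0 < t := mul_pos (Real.rpow_pos_of_pos hθ0 _) (by linarith)
  obtain ⟨e, he, hen⟩ := finite_approx (δ := δ) hp0 hp1 h.hsmul h.delta_lip o K hK hoK V' hV' μ t
    ht (by
      intro g hg hgK
      obtain ⟨T, hT1, hT2⟩ := h.funct g (hgK o hoK) 1 zero_le_one (by
        intro v w
        have := hg.dist_le_mul v w
        rwa [Real.dist_eq, NNReal.coe_one] at this)
      have h1 := hTy g hg hgK T hT1 hT2
      have h2 : T y = ∑ v ∈ V', μ v * g v := by
        rw [hy12, map_add]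
        have h3 : T y1 = 0 := by
          simp only [y1, map_sum, map_smul, hT1]
          refine Finset.sum_eq_zero fun v hv => ?_
          rw [hgK v (not_not.mp (Finset.mem_filter.mp hv).2), smul_zero]
        rw [h3, add_zero]
        simp only [y2, map_sum, map_smul, hT1, smul_eq_mul]
      rw [← h2]
      refine (le_abs_self _).trans (h1.trans ?_)
      exact mul_le_mul_of_nonneg_left (by linarith) (Real.rpow_nonneg hθ0.le _))
  refine ⟨y1 + e, Submodule.add_mem _ hy1 he, ?_⟩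
  have hfinal : ‖y2 - e‖ ≤ C * (2 * (2 * s)) ^ p :=
    hen.trans (final_bound hp0 hp1 hS hθ0 hθ1 hs0 hGcard hV'card)
  calc ‖x - (y1 + e)‖ = ‖(x - y) + (y2 - e)‖ := by
        congr 1
        rw [hy12]
        abel
    _ ≤ ‖x - y‖ + ‖y2 - e‖ := norm_add_le _ _
    _ ≤ s + C * (2 * (2 * s)) ^ p := add_le_add (hxy.trans hθs.le) hfinal
    _ < ε := hsε

end Pool.Agent.MP_259edd_an
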