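import Pool.Agent.MP_259edd_an.Ideal

set_option autoImplicit false

namespace Pool.Agent.MP_259edd_an

open Finset Filter Topology

universe u

/-- A weak form of the Ekeland variational principle. -/
lemma ekeland {M : Type u} [MetricSpace M] [CompleteSpace M] (φ : M → ℝ) (hφ : Continuous φ)
    (h0 : ∀ x, 0 ≤ φ x) (c : ℝ) (hc : 0 < c) (q₀ : M) :
    ∃ q, φ q + c * dist q q₀ ≤ φ q₀ ∧ ∀ x, φ q - c * dist x q ≤ φ x := by
  let S : M → Set M := fun y => {x | φ x + c * dist x y ≤ φ y}
  have htrans : ∀ {x y z : M}, x ∈ S y → y ∈ S z → x ∈ S z := by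
    intro x y z hx hy
    simp only [S, Set.mem_ofPred_eq] at hx hy ⊢
    have := mul_le_mul_of_nonneg_left (dist_triangle x y z) hc.le
    linarith
  have hself : ∀ y, y ∈ S y := by
    intro y
    simp only [S, Set.mem_ofPred_eq, dist_self, mul_zero, add_zero]; exact le_rfl
  have hnext : ∀ (y : M) (k : ℕ), ∃ x ∈ S y, ∀ z ∈ S y, φ x ≤ φ z + (1 / 2) ^ k := by
    intro y k
    have hne : (φ '' S y).Nonempty := ⟨φ y, y, hself y, rfl⟩
    have hbdd : BddBelow (φ '' S y) := ⟨0, by rintro _ ⟨z, _, rfl⟩; exact h0 z⟩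
    obtain ⟨_, ⟨x, hx, rfl⟩, hxlt⟩ := exists_lt_of_csInf_lt hne
      (show sInf (φ '' S y) < sInf (φ '' S y) + (1 / 2) ^ k by
        have : (0 : ℝ) < (1 / 2) ^ k := by positivity
        linarith)
    refine ⟨x, hx, fun z hz => ?_⟩
    have := csInf_le hbdd ⟨z, hz, rfl⟩
    linarith
  choose next hnext1 hnext2 using hnext
  let q : ℕ → M := fun n => Nat.rec q₀ (fun k y => next y k) n
  have hq0 : q 0 = q₀ := rfl
  have hqs : ∀ k, q (k + 1) = next (q k) k := fun k => rfl
  have hmem : ∀ m n, m ≤ n → q n ∈ S (q m) := by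
    intro m n hmn
    induction n, hmn using Nat.le_induction with
    | base => exact hself _
    | succ n _ ih =>
      rw [hqs]
      exact htrans (hnext1 _ _) ih
  have hanti : Antitone fun n => φ (q n) := by
    intro m n hmn
    have := hmem m n hmn
    simp only [S, Set.mem_ofPred_eq] at this
    have h2 : 0 ≤ c * dist (q n) (q m) := mul_nonneg hc.le dist_nonneg
    simp only
    linarith
  have hbdd : BddBelow (Set.range fun n => φ (q n)) := ⟨0, by rintro _ ⟨n, rfl⟩; exact h0 _⟩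
  let l : ℝ := ⨅ n, φ (q n)
  have hl : Tendsto (fun n => φ (q n)) atTop (𝓝 l) := tendsto_atTop_ciInf hanti hbdd
  have hlle : ∀ n, l ≤ φ (q n) := fun n => ciInf_le hbdd n
  have hcauchy : CauchySeq q := by
    refine cauchySeq_of_le_tendsto_0' (fun n => (φ (q n) - l) / c) ?_ ?_
    · intro m n hmn
      have := hmem m n hmn
      simp only [S, Set.mem_ofPred_eq] at this
      rw [le_div_iff₀ hc, dist_comm]
      have := hlle n
      linarith
    · have : Tendsto (fun n => (φ (q n) - l) / c) atTop (𝓝 ((l - l) / c)) :=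
        (hl.sub_const l).div_const c
      simpa using this
  obtain ⟨x₀, hx₀⟩ := cauchySeq_tendsto_of_complete hcauchy
  have hlim : ∀ m, x₀ ∈ S (q m) := by
    intro m
    simp only [S, Set.mem_ofPred_eq]
    have h1 : Tendsto (fun n => φ (q n) + c * dist (q n) (q m)) atTop
        (𝓝 (φ x₀ + c * dist x₀ (q m))) :=
      ((hφ.tendsto x₀).comp hx₀).add ((hx₀.dist tendsto_const_nhds).const_mul c)
    refine le_of_tendsto h1 ?_
    filter_upwards [eventually_ge_atTop m] with n hn
    exact hmem m n hn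
  refine ⟨x₀, hlim 0, fun x => ?_⟩
  by_contra hlt
  rw [not_le] at hlt
  have hx : x ∈ S x₀ := by
    simp only [S, Set.mem_ofPred_eq]; linarith
  have h1 : ∀ m, φ (q (m + 1)) ≤ φ x + (1 / 2) ^ m := fun m => by
    rw [hqs]
    exact hnext2 _ _ x (htrans hx (hlim m))
  have h2 : Tendsto (fun m : ℕ => φ x + (1 / 2 : ℝ) ^ m) atTop (𝓝 (φ x + 0)) :=
    (tendsto_pow_atTop_nhds_zero_of_lt_one (by norm_num) (by norm_num)).const_add _
  have h3 : Tendsto (fun m : ℕ => φ (q (m + 1))) atTop (𝓝 (φ x₀)) :=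
    ((hφ.tendsto x₀).comp hx₀).comp (tendsto_add_atTop_nat 1)
  have h4 : φ x₀ ≤ φ x := by
    have := le_of_tendsto_of_tendsto' h3 h2 h1
    simpa using this
  have : 0 ≤ c * dist x x₀ := mul_nonneg hc.le dist_nonneg
  linarith

variable {p : ℝ} {M : Type u} [MetricSpace M] {o : M} {F : Type u} [NormedAddCommGroup F]
  [Module ℝ F] {δ : M → F}

lemma abs_max_sub_max (a b c d L : ℝ) (h1 : |a - c| ≤ L) (h2 : |b - d| ≤ L) :
    |max a b - max c d| ≤ L :=
  (abs_max_sub_max_le_max a b c d).trans (max_le h1 h2)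

lemma abs_min_sub_min (a b c d L : ℝ) (h1 : |a - c| ≤ L) (h2 : |b - d| ≤ L) :
    |min a b - min c d| ≤ L :=
  (abs_min_sub_min_le_max a b c d).trans (max_le h1 h2)

/-- Functions vanishing on some `K n` kill the intersection. -/
lemma Core.kill_of_vanish (h : Core p o δ) {ι : Type*} {K : ι → Set M} {g : M → ℝ} (n : ι)
    (hg : ∀ v ∈ K n, g v = 0) : Kill p δ (Sinf δ K) g := by
  intro T hT hb x hx
  obtain ⟨L, hL⟩ := hb
  have hcont := continuous_of_bound h.hp0 T L hL
  have hzero : ∀ y ∈ Submodule.span ℝ (δ '' K n), T y = 0 := by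
    intro y hy
    refine Submodule.span_induction (p := fun y _ => T y = 0) ?_ ?_ ?_ ?_ hy
    · rintro _ ⟨v, hv, rfl⟩
      rw [hT, hg v hv]
    · exact map_zero T
    · intro a b _ _ ha hb
      rw [map_add, ha, hb, add_zero]
    · intro c a _ ha
      rw [map_smul, ha, smul_zero]
  have hcl : x ∈ closure ((Submodule.span ℝ (δ '' K n) : Submodule ℝ F) : Set F) := by
    rw [Metric.mem_closure_iff]
    intro ε hε
    obtain ⟨y, hy, hxy⟩ := hx n ε hε
    exact ⟨y, hy, by rwa [dist_eq_norm]⟩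
  have hclosed : IsClosed {y : F | T y = 0} := isClosed_eq hcont continuous_const
  exact (hclosed.closure_subset_iff.mpr hzero) hcl

/-- Nonnegative Lipschitz functions with bounded support vanishing on the intersection kill
`Sinf`. -/
theorem Core.kill_nonneg (h : Core p o δ) [CompleteSpace M] {ι : Type*} {K : ι → Set M}
    (hK : ∀ n, IsClosed (K n)) {f : M → ℝ} {A R : ℝ} (hA : 0 ≤ A) (hR : 0 ≤ R)
    (hf : ∀ v w, |f v - f w| ≤ A * dist v w) (hf0 : ∀ v, 0 ≤ f v) (hfo : f o = 0)
    (hfK : ∀ v, (∀ n, v ∈ K n) → f v = 0) (hfR : ∀ v, R < dist v o → f v = 0) :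
    Kill p δ (Sinf δ K) f := by
  classical
  let L : ℝ := A + 2
  have hL : 0 ≤ L := by simp only [L]; linarith
  let 𝒢 : Set (M → ℝ) := {g | (∀ v w, |g v - g w| ≤ L * dist v w) ∧ (∀ v, 0 ≤ g v ∧ g v ≤ f v) ∧
    Kill p δ (Sinf δ K) g}
  have hzero : (fun _ => (0 : ℝ)) ∈ 𝒢 := by
    refine ⟨fun v w => ?_, fun v => ⟨le_rfl, hf0 v⟩, ?_⟩
    · simp only [sub_self, abs_zero]; exact mul_nonneg hL dist_nonneg
    · exact h.kill_of_exists 0 (fun v => rfl) ⟨0, fun z => by simp⟩ fun x _ => rfl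
  have hGo : ∀ g ∈ 𝒢, g o = 0 := fun g hg =>
    le_antisymm ((hg.2.1 o).2.trans hfo.le) (hg.2.1 o).1
  have hideal : ∀ (g k : M → ℝ) (B : ℝ), 0 ≤ B → g o = 0 →
      (∀ v w, |g v - g w| ≤ B * dist v w) → Kill p δ (Sinf δ K) g →
      (∀ v w, |k v - k w| ≤ L * dist v w) → (∀ v, 0 ≤ k v ∧ k v ≤ f v) → (∀ v, k v ≤ g v) →
      k ∈ 𝒢 := by
    intro g k B hB hgo hgB hgk hkL hkf hkg
    refine ⟨hkL, hkf, ?_⟩
    refine h.kill_ideal (g := g) hB hL hR hgo hgB hkL (fun v => (hkf v).1) hkg (fun v hv => ?_) hgk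
    exact le_antisymm ((hkf v).2.trans (hfR v hv).le) (hkf v).1
  have hmax : ∀ g₁ ∈ 𝒢, ∀ g₂ ∈ 𝒢, (fun v => max (g₁ v) (g₂ v)) ∈ 𝒢 := by
    intro g₁ h₁ g₂ h₂
    refine hideal (fun v => g₁ v + g₂ v) _ (L + L) (by linarith) ?_ ?_ ?_ ?_ ?_ ?_
    · simp only [hGo g₁ h₁, hGo g₂ h₂, add_zero]
    · intro v w
      have e : g₁ v + g₂ v - (g₁ w + g₂ w) = (g₁ v - g₁ w) + (g₂ v - g₂ w) := by ring
      rw [e, add_mul]
      exact (abs_add_le _ _).trans (add_le_add (h₁.1 v w) (h₂.1 v w))
    · exact h.kill_add hL hL (hGo g₁ h₁) (hGo g₂ h₂) h₁.1 h₂.1 h₁.2.2 h₂.2.2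
    · intro v w
      exact abs_max_sub_max _ _ _ _ _ (h₁.1 v w) (h₂.1 v w)
    · intro v
      exact ⟨le_max_of_le_left (h₁.2.1 v).1, max_le (h₁.2.1 v).2 (h₂.2.1 v).2⟩
    · intro v
      exact max_le (by linarith [(h₂.2.1 v).1]) (by linarith [(h₁.2.1 v).1])
  let G : M → ℝ := fun v => sSup ((fun g : M → ℝ => g v) '' 𝒢)
  have hbdd : ∀ v, BddAbove ((fun g : M → ℝ => g v) '' 𝒢) := fun v =>
    ⟨f v, by rintro _ ⟨g, hg, rfl⟩; exact (hg.2.1 v).2⟩
  have hne : ∀ v, ((fun g : M → ℝ => g v) '' 𝒢).Nonempty := fun v => ⟨_, _, hzero, rfl⟩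
  have hleG : ∀ g ∈ 𝒢, ∀ v, g v ≤ G v := fun g hg v => le_csSup (hbdd v) ⟨g, hg, rfl⟩
  have hG0 : ∀ v, 0 ≤ G v := fun v => hleG _ hzero v
  have hGf : ∀ v, G v ≤ f v := fun v =>
    csSup_le (hne v) (by rintro _ ⟨g, hg, rfl⟩; exact (hg.2.1 v).2)
  have hGo' : G o = 0 := le_antisymm ((hGf o).trans hfo.le) (hG0 o)
  have hGL1 : ∀ v w, G v ≤ G w + L * dist v w := by
    intro v w
    refine csSup_le (hne v) ?_
    rintro _ ⟨g, hg, rfl⟩
    have h1 := (abs_le.mp (hg.1 v w)).2
    have h2 := hleG g hg w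
    simp only
    linarith
  have hGL : ∀ v w, |G v - G w| ≤ L * dist v w := by
    intro v w
    rw [abs_le]
    have h1 := hGL1 v w
    have h2 := hGL1 w v
    rw [dist_comm w v] at h2
    constructor <;> linarith
  have happrox : ∀ (V : Finset M) (η : ℝ), 0 < η → ∃ g ∈ 𝒢, ∀ v ∈ V, G v - η ≤ g v := by
    intro V η hη
    induction V using Finset.induction_on with
    | empty => exact ⟨_, hzero, by simp⟩
    | insert a V _ ih =>
      obtain ⟨g, hg, hgV⟩ := ih
      obtain ⟨_, ⟨g', hg', rfl⟩, hlt⟩ := exists_lt_of_lt_csSup (hne a)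
        (show G a - η < sSup ((fun g : M → ℝ => g a) '' 𝒢) by
          simp only [G]; linarith)
      refine ⟨_, hmax g hg g' hg', fun v hv => ?_⟩
      rcases Finset.mem_insert.mp hv with rfl | hv
      · exact le_max_of_le_right (by simpa using hlt.le)
      · exact le_max_of_le_left (hgV v hv)
  have hGmem : G ∈ 𝒢 := by
    refine ⟨hGL, fun v => ⟨hG0 v, hGf v⟩, ?_⟩
    refine h.kill_closed hL hGo' hGL fun V η hη => ?_
    obtain ⟨g, hg, hgV⟩ := happrox V η hη
    refine ⟨g, hGo g hg, hg.1, fun v hv => ?_, hg.2.2⟩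
    rw [abs_le]
    have h1 := hgV v hv
    have h2 := hleG g hg v
    constructor <;> linarith
  -- it remains to show that `G = f`
  suffices hGeq : G = f by rw [← hGeq]; exact hGmem.2.2
  by_contra hGne
  obtain ⟨q₀, hq₀⟩ : ∃ q₀, G q₀ < f q₀ := by
    by_contra hcon
    push Not at hcon
    exact hGne (funext fun v => le_antisymm (hGf v) (hcon v))
  have hGcont : Continuous G := by
    have : LipschitzWith ⟨L, hL⟩ G := LipschitzWith.of_dist_le_mul fun v w => by
      rw [Real.dist_eq]; exact hGL v w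
    exact this.continuous
  obtain ⟨q, hq1, hq2⟩ := ekeland G hGcont hG0 (A + 1) (by linarith) q₀
  have hqf : G q < f q := by
    have h1 := (abs_le.mp (hf q₀ q)).2
    rw [dist_comm] at h1
    have h2 : 0 ≤ dist q q₀ := dist_nonneg
    nlinarith
  have hfq : 0 < f q := (hG0 q).trans_lt hqf
  obtain ⟨n, hn⟩ : ∃ n, q ∉ K n := by
    by_contra hcon
    push Not at hcon
    exact hfq.ne' (hfK q hcon)
  have hqo : q ≠ o := fun hcon => hfq.ne' (by rw [hcon]; exact hfo)
  obtain ⟨r, hr0, hr⟩ : ∃ r > 0, Metric.ball q r ⊆ (K n)ᶜ ∩ {o}ᶜ := by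
    refine Metric.isOpen_iff.mp ((hK n).isOpen_compl.inter isOpen_compl_singleton) q ⟨hn, ?_⟩
    simpa using hqo
  let B : M → ℝ := fun v => max 0 (r - dist v q)
  have hBn : ∀ v ∈ K n, B v = 0 := by
    intro v hv
    have : ¬ dist v q < r := fun hlt => (hr (Metric.mem_ball.mpr hlt)).1 hv
    simp only [B]
    exact max_eq_left (by linarith [not_lt.mp this])
  have hBo : B o = 0 := by
    have : ¬ dist o q < r := fun hlt => (hr (Metric.mem_ball.mpr hlt)).2 rfl
    simp only [B]
    exact max_eq_left (by linarith [not_lt.mp this])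
  have hBL : ∀ v w, |B v - B w| ≤ 1 * dist v w := by
    intro v w
    refine abs_max_sub_max _ _ _ _ _ (by simp) ?_
    rw [one_mul]
    have : r - dist v q - (r - dist w q) = dist w q - dist v q := by ring
    rw [this, dist_comm v w]
    exact abs_dist_sub_le w v q
  have hBk : Kill p δ (Sinf δ K) B := h.kill_of_vanish n hBn
  -- the improved function
  let H : M → ℝ := fun v => max (G v) (min (f v) (G q + r / 2 - L * dist v q))
  have hHL : ∀ v w, |H v - H w| ≤ L * dist v w := by
    intro v w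
    refine abs_max_sub_max _ _ _ _ _ (hGL v w) (abs_min_sub_min _ _ _ _ _ ?_ ?_)
    · refine (hf v w).trans (mul_le_mul_of_nonneg_right ?_ dist_nonneg)
      simp only [L]; linarith
    · have : G q + r / 2 - L * dist v q - (G q + r / 2 - L * dist w q)
          = L * (dist w q - dist v q) := by ring
      rw [this, abs_mul, abs_of_nonneg hL, dist_comm v w]
      exact mul_le_mul_of_nonneg_left (abs_dist_sub_le w v q) hL
  have hHf : ∀ v, 0 ≤ H v ∧ H v ≤ f v := fun v =>
    ⟨le_max_of_le_left (hG0 v), max_le (hGf v) (min_le_left _ _)⟩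
  have hHB : ∀ v, H v ≤ G v + B v := by
    intro v
    have hB0 : 0 ≤ B v := le_max_left _ _
    refine max_le (by linarith) ?_
    by_cases hv : G q + r / 2 - L * dist v q ≤ G v
    · exact (min_le_right _ _).trans (by linarith)
    · rw [not_le] at hv
      have h1 := hq2 v
      have h2 : dist v q < r / 2 := by
        simp only [L] at hv
        linarith
      have h3 : r - dist v q ≤ B v := le_max_right _ _
      refine (min_le_right _ _).trans ?_
      simp only [L]
      linarith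
  have hHmem : H ∈ 𝒢 := by
    refine hideal (fun v => G v + B v) H (L + 1) (by linarith) ?_ ?_ ?_ hHL hHf hHB
    · simp only [hGo', hBo, add_zero]
    · intro v w
      have e : G v + B v - (G w + B w) = (G v - G w) + (B v - B w) := by ring
      rw [e, add_mul]
      exact (abs_add_le _ _).trans (add_le_add (hGL v w) (hBL v w))
    · exact h.kill_add hL zero_le_one hGo' hBo hGL hBL hGmem.2.2 hBk
  have hHq : G q < H q := by
    refine lt_of_lt_of_le ?_ (le_max_right _ _)
    refine lt_min hqf ?_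
    rw [dist_self, mul_zero, sub_zero]
    linarith
  exact absurd (hleG H hHmem q) (not_le.mpr hHq)

/-- Nonnegative Lipschitz functions vanishing on the intersection kill `Sinf`. -/
theorem Core.kill_nonneg' (h : Core p o δ) [CompleteSpace M] {ι : Type*} {K : ι → Set M}
    (hK : ∀ n, IsClosed (K n)) {f : M → ℝ} {A : ℝ} (hA : 0 ≤ A)
    (hf : ∀ v w, |f v - f w| ≤ A * dist v w) (hf0 : ∀ v, 0 ≤ f v) (hfo : f o = 0)
    (hfK : ∀ v, (∀ n, v ∈ K n) → f v = 0) : Kill p δ (Sinf δ K) f := by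
  refine h.kill_closed hA hfo hf fun V η hη => ?_
  obtain ⟨R, hR⟩ : ∃ R : ℝ, ∀ v ∈ V, dist v o ≤ R := by
    obtain ⟨R, hR⟩ := (V.image fun v => dist v o).bddAbove
    exact ⟨R, fun v hv => hR (by simpa using ⟨v, hv, rfl⟩)⟩
  let R' : ℝ := 2 * max R 0
  have hR' : 0 ≤ R' := by simp only [R']; positivity
  let g : M → ℝ := fun v => min (f v) (max 0 (A * (R' - dist v o)))
  have hgf : ∀ v, 0 ≤ g v := fun v => le_min (hf0 v) (le_max_left _ _)
  have hgL : ∀ v w, |g v - g w| ≤ A * dist v w := by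
    intro v w
    refine abs_min_sub_min _ _ _ _ _ (hf v w) (abs_max_sub_max _ _ _ _ _ ?_ ?_)
    · simp only [sub_self, abs_zero]; exact mul_nonneg hA dist_nonneg
    · have : A * (R' - dist v o) - A * (R' - dist w o) = A * (dist w o - dist v o) := by ring
      rw [this, abs_mul, abs_of_nonneg hA, dist_comm v w]
      exact mul_le_mul_of_nonneg_left (abs_dist_sub_le w v o) hA
  have hgo : g o = 0 := le_antisymm ((min_le_left _ _).trans hfo.le) (hgf o)
  refine ⟨g, hgo, hgL, fun v hv => ?_, ?_⟩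
  · have h1 : f v ≤ A * (R' - dist v o) := by
      have h2 := (abs_le.mp (hf v o)).2
      rw [hfo, sub_zero] at h2
      refine h2.trans (mul_le_mul_of_nonneg_left ?_ hA)
      have h3 := hR v hv
      have h4 := le_max_left R 0
      simp only [R']
      linarith
    have : g v = f v := min_eq_left (le_max_of_le_right h1)
    rw [this, sub_self, abs_zero]; exact hη.le
  · refine h.kill_nonneg hK hA hR' hgL hgf hgo (fun v hv => ?_) (fun v hv => ?_)
    · exact le_antisymm ((min_le_left _ _).trans (hfK v hv).le) (hgf v)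
    · refine le_antisymm ((min_le_right _ _).trans ?_) (hgf v)
      refine max_le le_rfl ?_
      exact mul_nonpos_of_nonneg_of_nonpos hA (by linarith)

/-- The intersection theorem, for `Core` data. -/
theorem Core.intersection (h : Core p o δ) [CompleteSpace M] [CompleteSpace F] {ι : Type*}
    (K : ι → Set M)
    (hK : ∀ n, IsClosed (K n)) (x : F)
    (hx : ∀ n, ∀ ε > 0, ∃ y ∈ Submodule.span ℝ (δ '' K n), ‖x - y‖ < ε) :
    ∀ ε > 0, ∃ y ∈ Submodule.span ℝ (δ '' ⋂ n, K n), ‖x - y‖ < ε := by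
  have hclosed : IsClosed ((⋂ n, K n) ∪ {o}) := (isClosed_iInter hK).union isClosed_singleton
  have hmain := h.mem_closure_of_annihilate ((⋂ n, K n) ∪ {o}) hclosed (Or.inr rfl) x (by
    intro g hg hgK T hT hb
    have hgL : ∀ v w, |g v - g w| ≤ 1 * dist v w := by
      intro v w
      have := hg.dist_le_mul v w
      rwa [Real.dist_eq, NNReal.coe_one] at this
    have hgo : g o = 0 := hgK o (Or.inr rfl)
    have hgK' : ∀ v, (∀ n, v ∈ K n) → g v = 0 := fun v hv => hgK v (Or.inl (Set.mem_iInter.mpr hv))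
    have hpos : Kill p δ (Sinf δ K) (fun v => max (g v) 0) := by
      refine h.kill_nonneg' hK zero_le_one (fun v w => ?_) (fun v => le_max_right _ _) ?_ ?_
      · exact abs_max_sub_max _ _ _ _ _ (hgL v w) (by simp)
      · simp [hgo]
      · intro v hv; simp [hgK' v hv]
    have hneg : Kill p δ (Sinf δ K) (fun v => max (-g v) 0) := by
      refine h.kill_nonneg' hK zero_le_one (fun v w => ?_) (fun v => le_max_right _ _) ?_ ?_
      · refine abs_max_sub_max _ _ _ _ _ ?_ (by simp)
        have : -g v - -g w = -(g v - g w) := by ring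
        rw [this, abs_neg]; exact hgL v w
      · simp [hgo]
      · intro v hv; simp [hgK' v hv]
    have hkill : Kill p δ (Sinf δ K) g := by
      have h1 := h.kill_neg zero_le_one (g := fun v => max (-g v) 0) (by simp [hgo])
        (fun v w => by
          refine abs_max_sub_max _ _ _ _ _ ?_ (by simp)
          have : -g v - -g w = -(g v - g w) := by ring
          rw [this, abs_neg]; exact hgL v w) hneg
      have h2 := h.kill_add zero_le_one zero_le_one (g₁ := fun v => max (g v) 0)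
        (g₂ := fun v => -max (-g v) 0) (by simp [hgo]) (by simp [hgo])
        (fun v w => abs_max_sub_max _ _ _ _ _ (hgL v w) (by simp))
        (fun v w => by
          have e : -max (-g v) 0 - -max (-g w) 0 = -(max (-g v) 0 - max (-g w) 0) := by ring
          rw [e, abs_neg]
          refine abs_max_sub_max _ _ _ _ _ ?_ (by simp)
          have : -g v - -g w = -(g v - g w) := by ring
          rw [this, abs_neg]; exact hgL v w) hpos h1
      have h3 : (fun v => max (g v) 0 + -max (-g v) 0) = g := by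
        funext v
        rcases le_total 0 (g v) with h4 | h4
        · rw [max_eq_left h4, max_eq_right (by linarith)]; ring
        · rw [max_eq_right h4, max_eq_left (by linarith)]; ring
      rwa [h3] at h2
    exact hkill T hT ⟨1, hb⟩ x hx)
  intro ε hε
  obtain ⟨e, he, hxe⟩ := hmain ε hε
  refine ⟨e, ?_, hxe⟩
  have hspan : Submodule.span ℝ (δ '' ((⋂ n, K n) ∪ {o})) ≤ Submodule.span ℝ (δ '' ⋂ n, K n) := by
    rw [Submodule.span_le]
    rintro _ ⟨v, (hv | hv), rfl⟩
    · exact Submodule.subset_span ⟨v, hv, rfl⟩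
    · rw [Set.mem_singleton_iff] at hv
      subst hv
      rw [h.delta_o]
      exact Submodule.zero_mem _
  exact hspan he

end Pool.Agent.MP_259edd_an
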