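import Pool.Agent.MP_259edd_an.Free
import Pool.Agent.MP_259edd_an.Intersect

set_option autoImplicit false

namespace Pool.Agent.MP_259edd_an

open Filter Topology

universe u

variable {p : ℝ}

/-- The real line is a `p`-Banach space. -/
lemma isPBanach_real (hp0 : 0 < p) (hp1 : p ≤ 1) :
    IsPBanach p (fun x : ULift.{u} ℝ => |x.down|) where
  nonneg x := abs_nonneg _
  eq_zero x hx := by
    rw [abs_eq_zero] at hx
    exact ULift.ext _ _ hx
  smul c x := by simp [abs_mul]
  add_le x y := by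
    rw [ULift.add_down]
    exact (Real.rpow_le_rpow (abs_nonneg _) (abs_add_le _ _) hp0.le).trans
      (Real.rpow_add_le_add_rpow (abs_nonneg _) (abs_nonneg _) hp0.le hp1)
  complete s hs := by
    have h2 : CauchySeq fun n => (s n).down := by
      rw [Metric.cauchySeq_iff]
      intro ε hε
      obtain ⟨k, hk⟩ := hs ε hε
      refine ⟨k, fun m hm n hn => ?_⟩
      have := hk m hm n hn
      rwa [ULift.sub_down] at this
    obtain ⟨x, hx⟩ := cauchySeq_tendsto_of_complete h2
    refine ⟨⟨x⟩, fun ε hε => ?_⟩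
    rw [Metric.tendsto_atTop] at hx
    obtain ⟨k, hk⟩ := hx ε hε
    refine ⟨k, fun n hn => ?_⟩
    have := hk n hn
    rwa [Real.dist_eq] at this

/-- Norm formula on the span of `δ`. -/
lemma free_norm_le (hp0 : 0 < p) (hp1 : p < 1) {M : Type u} [MetricSpace M] {o : M} {F : Type u}
    [AddCommGroup F] [Module ℝ F] {N : F → ℝ} {δ : M → F} (h : IsLipschitzFree p o N δ)
    (μ : M →₀ ℝ) : q p o μ ≤ N (μ.sum fun v c => c • δ v) ^ p := by
  have : Fact (0 < p) := ⟨hp0⟩
  have : Fact (p ≤ 1) := ⟨hp1.le⟩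
  obtain ⟨T, hT1, hT2, -⟩ := h.universal (FreeP p M o) (fun x => ‖x‖ ^ (1 / p))
    (isPBanach_of_normed hp0 freeP_norm_smul) (canon p M o) canon_base ⟨1, fun v w => by
      have h1 := Real.rpow_le_rpow (norm_nonneg _) (canon_sub (p := p) (o := o) v w)
        (one_div_pos.mpr hp0).le
      rwa [← Real.rpow_mul dist_nonneg, mul_one_div_cancel hp0.ne', Real.rpow_one,
        ← one_mul (dist v w)] at h1⟩
  have hT3 := (hT2 1 zero_le_one).mpr fun v w => by
      have h1 := Real.rpow_le_rpow (norm_nonneg _) (canon_sub (p := p) (o := o) v w)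
        (one_div_pos.mpr hp0).le
      rwa [← Real.rpow_mul dist_nonneg, mul_one_div_cancel hp0.ne', Real.rpow_one,
        ← one_mul (dist v w)] at h1
  have h4 := hT3 (μ.sum fun v c => c • δ v)
  have h5 : T (μ.sum fun v c => c • δ v) = incl p M o μ := by
    rw [incl_eq, Finsupp.sum, Finsupp.sum, map_sum]
    refine Finset.sum_congr rfl fun v _ => ?_
    rw [map_smul, hT1]
  rw [h5, incl_norm, one_mul] at h4
  have h6 := Real.rpow_le_rpow (Real.rpow_nonneg (q_nonneg (p := p) o μ) _) h4 hp0.le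
  rwa [← Real.rpow_mul (q_nonneg (p := p) o μ), one_div_mul_cancel hp0.ne', Real.rpow_one] at h6

theorem core_of_free (hp0 : 0 < p) (hp1 : p < 1) {M : Type u} [MetricSpace M] {o : M} {F : Type u}
    [AddCommGroup F] [Module ℝ F] {N : F → ℝ} {δ : M → F} (h : IsLipschitzFree p o N δ) :
    @Core p M _ o F (h.isPBanach.toNormed hp0) _ δ := by
  let _ := h.isPBanach.toNormed hp0
  have hN : ∀ x : F, ‖x‖ = N x ^ p := fun x => rfl
  have hN0 : ∀ x : F, 0 ≤ N x := h.isPBanach.nonneg
  refine ⟨hp0, hp1, ?_, h.map_base, ?_, ?_, ?_, ?_, ?_⟩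
  · intro c x
    rw [hN, hN, h.isPBanach.smul, Real.mul_rpow (abs_nonneg _) (hN0 _)]
  · intro v w
    rw [hN, h.isometry]
  · intro x ε hε
    obtain ⟨y, hy, hxy⟩ := h.dense_span x (ε ^ (1 / p)) (Real.rpow_pos_of_pos hε _)
    refine ⟨y, hy, ?_⟩
    have := Real.rpow_lt_rpow (hN0 _) hxy hp0
    rwa [← Real.rpow_mul hε.le, one_div_mul_cancel hp0.ne', Real.rpow_one] at this
  · intro y hy ε hε
    obtain ⟨μ, rfl⟩ := (Finsupp.mem_span_range_iff_exists_finsupp).mp hy
    obtain ⟨α, c, hα, hcost⟩ := exists_rep (p := p) o μ ε hε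
    refine ⟨α, ?_, ?_⟩
    · have h1 := free_norm_le hp0 hp1 h μ
      rw [hN]
      refine hcost.trans_le ?_
      linarith
    · have h1 : ∀ ν : M →₀ ℝ, (ν.sum fun v c => c • δ v) = Finsupp.linearCombination ℝ δ ν :=
        fun ν => (Finsupp.linearCombination_apply ℝ ν).symm
      have h2 : bd M α = ∑ e ∈ α.support,
          α e • (Finsupp.single e.1 (1 : ℝ) - Finsupp.single e.2 1) := by
        rw [bd, Finsupp.linearCombination_apply, Finsupp.sum]
      rw [h1, hα, map_add, Finsupp.linearCombination_single, h.map_base, smul_zero, add_zero, h2,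
        map_sum, Finsupp.sum]
      refine Finset.sum_congr rfl fun e _ => ?_
      rw [map_smul, map_sub, Finsupp.linearCombination_single, Finsupp.linearCombination_single,
        one_smul, one_smul]
  · intro g hgo L hL hg
    obtain ⟨T, hT1, hT2, -⟩ := h.universal (ULift.{u} ℝ) (fun x => |x.down|)
      (isPBanach_real hp0 hp1.le) (fun v => ⟨g v⟩) (by rw [hgo]; rfl) ⟨L, fun v w => by
        rw [ULift.sub_down]; exact hg v w⟩
    have hT3 := (hT2 L hL).mpr fun v w => by
        rw [ULift.sub_down]; exact hg v w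
    refine ⟨(ULift.moduleEquiv : ULift.{u} ℝ ≃ₗ[ℝ] ℝ).toLinearMap.comp T, fun v => ?_,
      fun z => ?_⟩
    · rw [LinearMap.comp_apply, hT1]; rfl
    · have h1 := hT3 z
      rw [hN, ← Real.rpow_mul (hN0 _), mul_one_div_cancel hp0.ne', Real.rpow_one]
      exact h1
  · intro φ C hC hφ
    have h1 : ∀ v w, N (φ v • δ v - φ w • δ w) ≤ C ^ (1 / p) * dist v w := by
      intro v w
      have h2 := Real.rpow_le_rpow (norm_nonneg _) (hφ v w) (one_div_pos.mpr hp0).le
      rwa [hN, ← Real.rpow_mul (hN0 _), mul_one_div_cancel hp0.ne', Real.rpow_one,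
        Real.mul_rpow hC (Real.rpow_nonneg dist_nonneg _), ← Real.rpow_mul dist_nonneg,
        mul_one_div_cancel hp0.ne', Real.rpow_one] at h2
    obtain ⟨W, hW1, hW2, -⟩ := h.universal F N h.isPBanach (fun v => φ v • δ v)
      (by rw [h.map_base, smul_zero]) ⟨_, h1⟩
    have hW3 := (hW2 (C ^ (1 / p)) (Real.rpow_nonneg hC _)).mpr h1
    refine ⟨W, hW1, fun z => ?_⟩
    have h3 := Real.rpow_le_rpow (hN0 _) (hW3 z) hp0.le
    rw [Real.mul_rpow (Real.rpow_nonneg hC _) (hN0 _), ← Real.rpow_mul hC,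
      one_div_mul_cancel hp0.ne', Real.rpow_one] at h3
    rw [hN, hN]
    exact h3

/-- The intersection property of Lipschitz free `p`-spaces. -/
theorem intersection (hp0 : 0 < p) (hp1 : p < 1) {M : Type u} [MetricSpace M] [CompleteSpace M]
    {o : M} {F : Type u} [AddCommGroup F] [Module ℝ F] {N : F → ℝ} {δ : M → F}
    (h : IsLipschitzFree p o N δ) {ι : Type*} (K : ι → Set M) (hK : ∀ n, IsClosed (K n)) :
    (⋂ n, closedSpan N (δ '' K n)) ⊆ closedSpan N (δ '' ⋂ n, K n) := by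
  let _ := h.isPBanach.toNormed hp0
  have : CompleteSpace F := h.isPBanach.completeSpace hp0
  have hN : ∀ x : F, ‖x‖ = N x ^ p := fun x => rfl
  have hN0 : ∀ x : F, 0 ≤ N x := h.isPBanach.nonneg
  intro x hx
  have hcore := core_of_free hp0 hp1 h
  have h1 := hcore.intersection K hK x (by
    intro n ε hε
    obtain ⟨y, hy, hxy⟩ := Set.mem_iInter.mp hx n (ε ^ (1 / p)) (Real.rpow_pos_of_pos hε _)
    refine ⟨y, hy, ?_⟩
    have := Real.rpow_lt_rpow (hN0 _) hxy hp0
    rwa [← Real.rpow_mul hε.le, one_div_mul_cancel hp0.ne', Real.rpow_one] at this)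
  intro ε hε
  obtain ⟨y, hy, hxy⟩ := h1 (ε ^ p) (Real.rpow_pos_of_pos hε _)
  refine ⟨y, hy, ?_⟩
  rw [hN] at hxy
  exact (Real.rpow_lt_rpow_iff (hN0 _) hε.le hp0).mp hxy

end Pool.Agent.MP_259edd_an
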