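import Mathlib

set_option autoImplicit false

namespace Pool.Agent.MP_259edd_an

universe u

/-- `N` is a `p`-norm on the real vector space `X` (a homogeneous, positive definite function with
`N (x + y) ^ p ≤ N x ^ p + N y ^ p`) for which `X` is complete, i.e. `(X, N)` is a `p`-Banach
space. -/
structure IsPBanach (p : ℝ) {X : Type u} [AddCommGroup X] [Module ℝ X] (N : X → ℝ) : Prop where
  nonneg : ∀ x, 0 ≤ N x
  eq_zero : ∀ x, N x = 0 → x = 0
  smul : ∀ (c : ℝ) (x : X), N (c • x) = |c| * N x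
  add_le : ∀ x y, N (x + y) ^ p ≤ N x ^ p + N y ^ p
  complete : ∀ s : ℕ → X, (∀ ε > 0, ∃ k, ∀ m ≥ k, ∀ n ≥ k, N (s m - s n) < ε) →
    ∃ x, ∀ ε > 0, ∃ k, ∀ n ≥ k, N (s n - x) < ε

/-- `F` with the `p`-norm `N` and the map `δ` is the Lipschitz free `p`-space of the metric space
`M` with base point `o`: it is a `p`-Banach space, `δ o = 0`, `δ` is an isometric embedding, the
linear span of its image is dense, and every Lipschitz map `f` from `M` to a `p`-Banach space with
`f o = 0` factors as `T ∘ δ` for a unique bounded linear map `T`, whose norm is the Lipschitz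
constant of `f` (for every `L ≥ 0`, `‖T‖ ≤ L` iff `f` is `L`-Lipschitz). -/
structure IsLipschitzFree (p : ℝ) {M : Type u} [MetricSpace M] (o : M) {F : Type u}
    [AddCommGroup F] [Module ℝ F] (N : F → ℝ) (δ : M → F) : Prop where
  isPBanach : IsPBanach p N
  map_base : δ o = 0
  isometry : ∀ v w, N (δ v - δ w) = dist v w
  dense_span : ∀ x, ∀ ε > 0, ∃ y ∈ Submodule.span ℝ (Set.range δ), N (x - y) < ε
  universal : ∀ (X : Type u) [AddCommGroup X] [Module ℝ X] (NX : X → ℝ), IsPBanach p NX →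
    ∀ f : M → X, f o = 0 → (∃ L, ∀ v w, NX (f v - f w) ≤ L * dist v w) →
      ∃ T : F →ₗ[ℝ] X, (∀ v, T (δ v) = f v) ∧
        (∀ L, 0 ≤ L → ((∀ z, NX (T z) ≤ L * N z) ↔ ∀ v w, NX (f v - f w) ≤ L * dist v w)) ∧
        ∀ T' : F →ₗ[ℝ] X, (∃ C, ∀ z, NX (T' z) ≤ C * N z) → (∀ v, T' (δ v) = f v) → T' = T

/-- The closed linear span of a set `S` with respect to the `p`-norm `N`. For `S = δ '' K` this is
the subspace `F_p(K; M)` of `F_p(M)`. -/
def closedSpan {F : Type u} [AddCommGroup F] [Module ℝ F] (N : F → ℝ) (S : Set F) : Set F :=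
  {x | ∀ ε > 0, ∃ y ∈ Submodule.span ℝ S, N (x - y) < ε}

end Pool.Agent.MP_259edd_an
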