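import Pool.Agent.MP_259edd_an.Bridge

set_option autoImplicit false

namespace Pool.Agent.MP_259edd_an

open Filter Topology

universe u

variable {p : ℝ} {M : Type u} [MetricSpace M] {o : M}

/-- Finite sums in a `p`-normed space. -/
lemma IsPBanach.sum_le (hp0 : 0 < p) {X : Type u} [AddCommGroup X] [Module ℝ X] {N : X → ℝ}
    (h : IsPBanach p N) {ι : Type*} (s : Finset ι) (f : ι → X) :
    N (∑ i ∈ s, f i) ^ p ≤ ∑ i ∈ s, N (f i) ^ p := by
  let _ := h.toNormed hp0
  exact norm_sum_le s f

/-- The linear extension of `f` is bounded by the free `p`-seminorm. -/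
lemma lin_bound (hp0 : 0 < p) {X : Type u} [AddCommGroup X] [Module ℝ X] {N : X → ℝ}
    (h : IsPBanach p N) (f : M → X) (hfo : f o = 0) {L : ℝ} (hL : 0 ≤ L)
    (hf : ∀ v w, N (f v - f w) ≤ L * dist v w) (μ : M →₀ ℝ) :
    N (Finsupp.linearCombination ℝ f μ) ^ p ≤ L ^ p * q p o μ := by
  have hLp : 0 ≤ L ^ p := Real.rpow_nonneg hL _
  refine le_of_forall_pos_le_add fun ε hε => ?_
  obtain ⟨α, c, hα, hcost⟩ := exists_rep (p := p) o μ (ε / (L ^ p + 1)) (by positivity)
  have h2 : bd M α = ∑ e ∈ α.support,
      α e • (Finsupp.single e.1 (1 : ℝ) - Finsupp.single e.2 1) := by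
    rw [bd, Finsupp.linearCombination_apply, Finsupp.sum]
  have h3 : Finsupp.linearCombination ℝ f μ = ∑ e ∈ α.support, α e • (f e.1 - f e.2) := by
    rw [hα, map_add, Finsupp.linearCombination_single, hfo, smul_zero, add_zero, h2, map_sum]
    refine Finset.sum_congr rfl fun e _ => ?_
    rw [map_smul, map_sub, Finsupp.linearCombination_single, Finsupp.linearCombination_single,
      one_smul, one_smul]
  have h4 : N (Finsupp.linearCombination ℝ f μ) ^ p ≤ L ^ p * cost p α := by
    rw [h3, cost, Finsupp.sum, Finset.mul_sum]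
    refine (h.sum_le hp0 _ _).trans (Finset.sum_le_sum fun e _ => ?_)
    rw [h.smul, ← Real.mul_rpow hL (mul_nonneg (abs_nonneg _) dist_nonneg)]
    refine Real.rpow_le_rpow (mul_nonneg (abs_nonneg _) (h.nonneg _)) ?_ hp0.le
    calc |α e| * N (f e.1 - f e.2) ≤ |α e| * (L * dist e.1 e.2) :=
          mul_le_mul_of_nonneg_left (hf _ _) (abs_nonneg _)
      _ = L * (|α e| * dist e.1 e.2) := by ring
  have h5 : L ^ p * (ε / (L ^ p + 1)) ≤ ε := by
    rw [mul_div_assoc', div_le_iff₀ (by positivity)]
    nlinarith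
  have h6 := mul_le_mul_of_nonneg_left hcost.le hLp
  rw [mul_add] at h6
  linarith

variable [Fact (0 < p)] [Fact (p ≤ 1)]

lemma canon_isometry (v w : M) :
    ‖canon p M o v - canon p M o w‖ ^ (1 / p) = dist v w := by
  have hp0 : 0 < p := Fact.out
  have hp1 : p ≤ 1 := Fact.out
  refine le_antisymm ?_ ?_
  · have h1 := Real.rpow_le_rpow (norm_nonneg _) (canon_sub (p := p) (o := o) v w)
        (one_div_pos.mpr hp0).le
    rwa [← Real.rpow_mul dist_nonneg, mul_one_div_cancel hp0.ne', Real.rpow_one] at h1
  · -- test with the distance function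
    let f : M → ULift.{u} ℝ := fun x => ⟨dist x w - dist o w⟩
    have h1 := lin_bound (M := M) (o := o) hp0 (isPBanach_real.{u} hp0 hp1) f
      (ULift.ext _ _ (sub_self _)) (L := 1) zero_le_one
      (fun x y => by
        simp only [f, ULift.sub_down]
        rw [one_mul]
        have : dist x w - dist o w - (dist y w - dist o w) = dist x w - dist y w := by ring
        rw [this]
        exact abs_dist_sub_le x y w) (Finsupp.single v 1 - Finsupp.single w 1)
    rw [map_sub, Finsupp.linearCombination_single, Finsupp.linearCombination_single, one_smul,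
      one_smul, Real.one_rpow, one_mul] at h1
    have h2 : |(f v - f w).down| = dist v w := by
      simp only [f, ULift.sub_down, dist_self]
      have : dist v w - dist o w - (0 - dist o w) = dist v w := by ring
      rw [this, abs_of_nonneg dist_nonneg]
    rw [h2] at h1
    have h3 : ‖canon p M o v - canon p M o w‖
        = q p o (Finsupp.single v 1 - Finsupp.single w 1) := by
      rw [canon, canon, ← map_sub, incl_norm]
    rw [h3]
    have h4 := Real.rpow_le_rpow (Real.rpow_nonneg dist_nonneg _) h1 (one_div_pos.mpr hp0).le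
    rwa [← Real.rpow_mul dist_nonneg, mul_one_div_cancel hp0.ne', Real.rpow_one] at h4

lemma incl_mem_span (μ : M →₀ ℝ) :
    incl p M o μ ∈ Submodule.span ℝ (Set.range (canon p M o)) := by
  rw [incl_eq, Finsupp.sum]
  exact Submodule.sum_mem _ fun v _ => Submodule.smul_mem _ _ (Submodule.subset_span ⟨v, rfl⟩)

/-- The inclusion as a continuous linear map from `PreFree`. -/
noncomputable def inclL (p : ℝ) (M : Type u) (o : M) [MetricSpace M] [Fact (0 < p)]
    [Fact (p ≤ 1)] : PreFree p M o →L[ℝ] FreeP p M o where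
  toFun μ := (μ : FreeP p M o)
  map_add' μ ν := UniformSpace.Completion.coe_add μ ν
  map_smul' c μ := by
    rw [UniformSpace.Completion.coe_smul, RingHom.id_apply]
  cont := UniformSpace.Completion.continuous_coe _

/-- Existence of Lipschitz free `p`-spaces in the sense of `IsLipschitzFree`. -/
theorem isLipschitzFree_freeP :
    IsLipschitzFree p o (fun x : FreeP p M o => ‖x‖ ^ (1 / p)) (canon p M o) := by
  have hp0 : 0 < p := Fact.out
  have hp1 : p ≤ 1 := Fact.out
  refine ⟨isPBanach_of_normed hp0 freeP_norm_smul, canon_base, canon_isometry, ?_, ?_⟩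
  · intro x ε hε
    have h1 : DenseRange ((↑) : PreFree p M o → FreeP p M o) :=
      UniformSpace.Completion.denseRange_coe
    obtain ⟨μ, hμ⟩ := h1.exists_dist_lt x (Real.rpow_pos_of_pos hε p)
    refine ⟨incl p M o ((toPre p M o).symm μ), incl_mem_span _, ?_⟩
    have h2 : incl p M o ((toPre p M o).symm μ) = (μ : FreeP p M o) := rfl
    rw [h2]
    rw [dist_eq_norm] at hμ
    have h3 := Real.rpow_lt_rpow (norm_nonneg _) hμ (one_div_pos.mpr hp0)
    rwa [← Real.rpow_mul hε.le, mul_one_div_cancel hp0.ne', Real.rpow_one] at h3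
  · intro X _ _ NX hX f hfo hf
    obtain ⟨L₀, hL₀⟩ := hf
    let _ := hX.toNormed hp0
    have : CompleteSpace X := hX.completeSpace hp0
    have hN : ∀ x : X, ‖x‖ = NX x ^ p := fun x => rfl
    have hN0 : ∀ x : X, 0 ≤ NX x := hX.nonneg
    have : ContinuousConstSMul ℝ X := ⟨fun c => by
      have hc : 0 ≤ |c| ^ p := Real.rpow_nonneg (abs_nonneg _) _
      have : LipschitzWith ⟨|c| ^ p, hc⟩ fun x : X => c • x := by
        refine LipschitzWith.of_dist_le_mul fun x y => ?_
        rw [dist_eq_norm, dist_eq_norm, ← smul_sub, hN, hN, hX.smul,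
          Real.mul_rpow (abs_nonneg _) (hN0 _)]
        exact le_rfl
      exact this.continuous⟩
    let L : ℝ := max L₀ 0
    have hL : 0 ≤ L := le_max_right _ _
    have hfL : ∀ v w, NX (f v - f w) ≤ L * dist v w := fun v w =>
      (hL₀ v w).trans (mul_le_mul_of_nonneg_right (le_max_left _ _) dist_nonneg)
    let T₀ : PreFree p M o →ₗ[ℝ] X := (Finsupp.linearCombination ℝ f).comp
      (toPre p M o).symm.toLinearMap
    have hT₀ : ∀ L', 0 ≤ L' → (∀ v w, NX (f v - f w) ≤ L' * dist v w) →
        ∀ μ, ‖T₀ μ‖ ≤ L' ^ p * ‖μ‖ := fun L' hL' hf' μ =>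
      lin_bound hp0 hX f hfo hL' hf' ((toPre p M o).symm μ)
    have hT₀c : Continuous T₀ :=
      AddMonoidHomClass.continuous_of_bound T₀ (L ^ p) (hT₀ L hL hfL)
    let T₁ : PreFree p M o →L[ℝ] X := ⟨T₀, hT₀c⟩
    have hdense : DenseRange (inclL p M o) := UniformSpace.Completion.denseRange_coe
    have hind : IsUniformInducing (inclL p M o) :=
      UniformSpace.Completion.isUniformInducing_coe _
    let T : FreeP p M o →L[ℝ] X := T₁.extend (inclL p M o)
    have hT : ∀ μ : PreFree p M o, T (μ : FreeP p M o) = T₀ μ := fun μ =>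
      ContinuousLinearMap.extend_eq T₁ hdense hind μ
    have hTδ : ∀ v, T (canon p M o v) = f v := by
      intro v
      have h1 : canon p M o v = ((toPre p M o (Finsupp.single v 1) : PreFree p M o) :
          FreeP p M o) := rfl
      rw [h1, hT]
      simp [T₀]
    have hbound : ∀ L', 0 ≤ L' → (∀ v w, NX (f v - f w) ≤ L' * dist v w) →
        ∀ z, NX (T z) ≤ L' * ‖z‖ ^ (1 / p) := by
      intro L' hL' hf' z
      have h1 : ‖T z‖ ≤ L' ^ p * ‖z‖ := by
        induction z using UniformSpace.Completion.induction_on with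
        | hp => exact isClosed_le (continuous_norm.comp T.continuous)
                  (continuous_const.mul continuous_norm)
        | ih μ =>
          rw [hT, UniformSpace.Completion.norm_coe]
          exact hT₀ L' hL' hf' μ
      have h2 := Real.rpow_le_rpow (norm_nonneg _) h1 (one_div_pos.mpr hp0).le
      rwa [hN, ← Real.rpow_mul (hN0 _), mul_one_div_cancel hp0.ne', Real.rpow_one,
        Real.mul_rpow (Real.rpow_nonneg hL' _) (norm_nonneg _), ← Real.rpow_mul hL',
        mul_one_div_cancel hp0.ne', Real.rpow_one] at h2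
    refine ⟨T.toLinearMap, hTδ, fun L' hL' => ⟨fun h v w => ?_, hbound L' hL'⟩, ?_⟩
    · have h1 := h (canon p M o v - canon p M o w)
      rw [map_sub] at h1
      change NX (T (canon p M o v) - T (canon p M o w)) ≤ _ at h1
      rw [hTδ, hTδ, canon_isometry] at h1
      exact h1
    · rintro T' ⟨C, hC⟩ hT'
      have hC' : ∀ z, ‖T' z‖ ≤ |C| ^ p * ‖z‖ := by
        intro z
        have h1 : NX (T' z) ≤ |C| * ‖z‖ ^ (1 / p) :=
          (hC z).trans (mul_le_mul_of_nonneg_right (le_abs_self _)
            (Real.rpow_nonneg (norm_nonneg _) _))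
        have h2 := Real.rpow_le_rpow (hN0 _) h1 hp0.le
        rwa [Real.mul_rpow (abs_nonneg _) (Real.rpow_nonneg (norm_nonneg _) _),
          ← Real.rpow_mul (norm_nonneg _), one_div_mul_cancel hp0.ne', Real.rpow_one] at h2
      have hT'c : Continuous T' := AddMonoidHomClass.continuous_of_bound T' _ hC'
      have heq : (T' : FreeP p M o → X) = T := by
        refine Continuous.ext_on UniformSpace.Completion.denseRange_coe hT'c T.continuous ?_
        rintro _ ⟨μ, rfl⟩
        have h1 : (μ : FreeP p M o) = incl p M o ((toPre p M o).symm μ) := rfl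
        rw [h1, incl_eq, Finsupp.sum, map_sum, map_sum]
        refine Finset.sum_congr rfl fun v _ => ?_
        rw [map_smul, map_smul, hT', hTδ]
      exact LinearMap.ext fun z => congrFun heq z

end Pool.Agent.MP_259edd_an
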