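import Mathlib

set_option autoImplicit false

namespace Pool.Agent.MP_259edd_an

open Finset

universe u

lemma sum_rpow_le {ι : Type*} [Fintype ι] (w : ι → ℝ) (hw : ∀ i, 0 ≤ w i) {p : ℝ} (hp0 : 0 < p)
    (hp1 : p < 1) (hsum : ∑ i, w i ≤ 1) :
    ∑ i, (w i) ^ p ≤ (Fintype.card ι : ℝ) ^ (1 - p) := by
  have hp : (1 : ℝ) ≤ 1 / p := by
    rw [le_div_iff₀ hp0]; linarith
  have h1 := Real.rpow_sum_le_const_mul_sum_rpow_of_nonneg (s := (univ : Finset ι))
    (f := fun i => (w i) ^ p) hp (fun i _ => Real.rpow_nonneg (hw i) p)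
  have h2 : ∀ i, ((w i) ^ p) ^ (1 / p) = w i := by
    intro i
    rw [← Real.rpow_mul (hw i), mul_one_div_cancel hp0.ne', Real.rpow_one]
  simp only [h2] at h1
  have hS : 0 ≤ ∑ i, (w i) ^ p := Finset.sum_nonneg fun i _ => Real.rpow_nonneg (hw i) p
  have hC : 0 ≤ (Fintype.card ι : ℝ) := Nat.cast_nonneg _
  have h3 : (∑ i, (w i) ^ p) ^ (1 / p) ≤ (Fintype.card ι : ℝ) ^ (1 / p - 1) := by
    refine h1.trans ?_
    calc ((univ : Finset ι).card : ℝ) ^ (1 / p - 1) * ∑ i, w i
        ≤ ((univ : Finset ι).card : ℝ) ^ (1 / p - 1) * 1 :=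
          mul_le_mul_of_nonneg_left hsum (Real.rpow_nonneg (Nat.cast_nonneg _) _)
      _ = (Fintype.card ι : ℝ) ^ (1 / p - 1) := by rw [mul_one, Finset.card_univ]
  have h4 := Real.rpow_le_rpow (Real.rpow_nonneg hS _) h3 hp0.le
  rw [← Real.rpow_mul hS, one_div_mul_cancel hp0.ne', Real.rpow_one, ← Real.rpow_mul hC] at h4
  have : (1 / p - 1) * p = 1 - p := by field_simp
  rwa [this] at h4

variable {p : ℝ} {M : Type u} [MetricSpace M] {F : Type u} [NormedAddCommGroup F] [Module ℝ F]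
  {δ : M → F}

/-- Key finite approximation estimate: an `n`-point supported vector is within
`(n+1)^(1-p) (2t)^p` of the span of `δ '' K` if all `1`-Lipschitz functions vanishing on `K` are
at most `t` on it. -/
lemma finite_approx (hp0 : 0 < p) (hp1 : p < 1)
    (hsmul : ∀ (c : ℝ) (x : F), ‖c • x‖ = |c| ^ p * ‖x‖)
    (hlip : ∀ v w, ‖δ v - δ w‖ ≤ dist v w ^ p) (o : M) (K : Set M)
    (hK : IsClosed K) (hoK : o ∈ K) (V : Finset M) (hV : ∀ v ∈ V, v ∉ K) (μ : M → ℝ) (t : ℝ)
    (ht : 0 < t)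
    (h : ∀ g : M → ℝ, LipschitzWith 1 g → (∀ k ∈ K, g k = 0) → ∑ v ∈ V, μ v * g v ≤ t) :
    ∃ e ∈ Submodule.span ℝ (δ '' K),
      ‖∑ v ∈ V, μ v • δ v - e‖ ≤ ((V.card : ℝ) + 1) ^ (1 - p) * (2 * t) ^ p := by
  classical
  have hKne : K.Nonempty := ⟨o, hoK⟩
  rcases V.eq_empty_or_nonempty with rfl | hVne
  · refine ⟨0, Submodule.zero_mem _, ?_⟩
    simp only [Finset.sum_empty, sub_zero, norm_zero]
    positivity
  have hρ : ∀ v : V, 0 < Metric.infDist (v : M) K := fun v =>
    (hK.notMem_iff_infDist_pos hKne).mp (hV v v.2)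
  -- molecules
  let E := V → ℝ
  let mol1 : V × V → E := fun q =>
    (1 / dist (q.1 : M) (q.2 : M)) • (Pi.single q.1 1 - Pi.single q.2 1)
  let mol2 : V → E := fun v => (1 / Metric.infDist (v : M) K) • Pi.single v 1
  let mol3 : V → E := fun v => (-(1 / Metric.infDist (v : M) K)) • Pi.single v 1
  let Mol : Set E := Set.range mol1 ∪ (Set.range mol2 ∪ Set.range mol3)
  have hMolfin : Mol.Finite :=
    (Set.finite_range _).union ((Set.finite_range _).union (Set.finite_range _))
  let μ' : E := fun v => μ v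
  have hmem : t⁻¹ • μ' ∈ convexHull ℝ Mol := by
    by_contra hnot
    obtain ⟨f, u, hfu, huf⟩ := geometric_hahn_banach_closed_point (convex_convexHull ℝ Mol)
      (hMolfin.isCompact_convexHull ℝ).isClosed hnot
    have hmol : ∀ b ∈ Mol, f b < u := fun b hb => hfu b (subset_convexHull ℝ Mol hb)
    obtain ⟨v0, hv0⟩ := hVne
    have hu : 0 < u := by
      have h2 : f (mol2 ⟨v0, hv0⟩) < u :=
        hmol _ (Or.inr (Or.inl ⟨_, rfl⟩))
      have h3 : f (mol3 ⟨v0, hv0⟩) < u :=
        hmol _ (Or.inr (Or.inr ⟨_, rfl⟩))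
      have h4 : mol3 ⟨v0, hv0⟩ = - mol2 ⟨v0, hv0⟩ := by
        simp only [mol2, mol3, neg_smul]
      rw [h4, map_neg] at h3
      linarith
    let g0 : M → ℝ := fun v => if hv : v ∈ V then f (Pi.single ⟨v, hv⟩ 1) / u else 0
    have hg0V : ∀ v : V, g0 v = f (Pi.single v 1) / u := fun v => by
      simp only [g0, v.2, dif_pos, Subtype.coe_eta]
    have hg0K : ∀ k ∈ K, g0 k = 0 := by
      intro k hk
      have : k ∉ V := fun hkV => hV k hkV hk
      simp only [g0, this, dif_neg, not_false_iff]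
    have hpair : ∀ v w : V, g0 v - g0 w ≤ dist (v : M) (w : M) := by
      intro v w
      by_cases hvw : v = w
      · subst hvw; simp
      · have hd : 0 < dist (v : M) (w : M) := dist_pos.mpr (fun h => hvw (Subtype.ext h))
        have h1 : f (mol1 (v, w)) < u := hmol _ (Or.inl ⟨_, rfl⟩)
        simp only [mol1, map_smul, map_sub, smul_eq_mul] at h1
        rw [hg0V, hg0V, ← sub_div, div_le_iff₀ hu]
        rw [one_div, inv_mul_lt_iff₀ hd] at h1
        exact h1.le
    have hone : ∀ v : V, |g0 v| ≤ Metric.infDist (v : M) K := by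
      intro v
      have h2 : f (mol2 v) < u := hmol _ (Or.inr (Or.inl ⟨_, rfl⟩))
      have h3 : f (mol3 v) < u := hmol _ (Or.inr (Or.inr ⟨_, rfl⟩))
      have h4 : mol3 v = - mol2 v := by
        simp only [mol2, mol3, neg_smul]
      rw [h4, map_neg] at h3
      simp only [mol2, map_smul, smul_eq_mul] at h2 h3
      rw [hg0V, abs_div, abs_of_pos hu, div_le_iff₀ hu, abs_le]
      rw [one_div, inv_mul_lt_iff₀ (hρ v)] at h2
      rw [one_div, ← mul_neg, inv_mul_lt_iff₀ (hρ v)] at h3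
      constructor
      · linarith
      · exact h2.le
    have hLip : LipschitzOnWith 1 g0 ((V : Set M) ∪ K) := by
      rw [lipschitzOnWith_iff_dist_le_mul]
      have hVK : ∀ v : V, ∀ k ∈ K, |g0 v - g0 k| ≤ dist (v : M) k := by
        intro v k hk
        rw [hg0K k hk, sub_zero]
        exact (hone v).trans (Metric.infDist_le_dist_of_mem hk)
      rintro x (hx | hx) y (hy | hy)
      · rw [Real.dist_eq, NNReal.coe_one, one_mul, abs_le]
        have h1 := hpair ⟨x, hx⟩ ⟨y, hy⟩
        have h2 := hpair ⟨y, hy⟩ ⟨x, hx⟩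
        simp only at h1 h2
        rw [dist_comm y x] at h2
        constructor <;> linarith
      · rw [Real.dist_eq, NNReal.coe_one, one_mul]
        exact hVK ⟨x, hx⟩ y hy
      · rw [Real.dist_eq, NNReal.coe_one, one_mul, abs_sub_comm, dist_comm]
        exact hVK ⟨y, hy⟩ x hx
      · rw [Real.dist_eq, hg0K x hx, hg0K y hy]; simp
    obtain ⟨g, hg, hgeq⟩ := hLip.extend_real
    have hgK : ∀ k ∈ K, g k = 0 := fun k hk => by
      rw [← hgeq (Or.inr hk)]; exact hg0K k hk
    have hfin := h g hg hgK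
    have hgV : ∀ v : V, g v = f (Pi.single v 1) / u := fun v => by
      rw [← hgeq (Or.inl v.2)]; exact hg0V v
    have hsum : ∑ v ∈ V, μ v * g v = f μ' / u := by
      rw [← Finset.sum_coe_sort V (fun v => μ v * g v)]
      have hμ' : μ' = ∑ v : V, μ v • (Pi.single v (1 : ℝ) : E) := by
        funext w
        rw [Finset.sum_apply]
        simp only [μ', Pi.smul_apply, smul_eq_mul, Pi.single_apply, mul_ite, mul_one, mul_zero]
        simp
      rw [hμ', map_sum, Finset.sum_div]
      refine Finset.sum_congr rfl fun v _ => ?_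
      rw [hgV, map_smul, smul_eq_mul, mul_div_assoc]
    rw [hsum, div_le_iff₀ hu] at hfin
    rw [map_smul, smul_eq_mul, lt_inv_mul_iff₀ ht] at huf
    linarith
  obtain ⟨ι, hι, z, w, hz, hzind, hw, hw1, hwz⟩ := eq_pos_convex_span_of_mem_convexHull hmem
  have hcard : (Fintype.card ι : ℝ) ≤ (V.card : ℝ) + 1 := by
    have h1 := hzind.card_le_finrank_succ
    have h2 : Module.finrank ℝ (vectorSpan ℝ (Set.range z)) ≤ Module.finrank ℝ E :=
      Submodule.finrank_le _
    have h3 : Module.finrank ℝ E = V.card := by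
      simp [E]
    have : Fintype.card ι ≤ V.card + 1 := h1.trans (Nat.add_le_add_right (h2.trans h3.le) 1)
    exact_mod_cast this
  let Φ : (V → ℝ) →ₗ[ℝ] F :=
    { toFun := fun x => ∑ v : V, x v • δ v
      map_add' := by
        intro x y
        simp only [Pi.add_apply, add_smul, Finset.sum_add_distrib]
      map_smul' := by
        intro c x
        simp only [Pi.smul_apply, smul_eq_mul, mul_smul, Finset.smul_sum, RingHom.id_apply] }
  have hΦsingle : ∀ v : V, Φ (Pi.single v 1) = δ v := by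
    intro v
    change ∑ w : V, (Pi.single v (1 : ℝ) : V → ℝ) w • δ w = δ v
    rw [Finset.sum_eq_single v]
    · simp
    · intro w _ hw
      rw [Pi.single_eq_of_ne hw, zero_smul]
    · intro hv; exact absurd (Finset.mem_univ v) hv
  have hnear : ∀ v : V, ∃ k ∈ K, dist (v : M) k < 2 * Metric.infDist (v : M) K := by
    intro v
    have : Metric.infDist (v : M) K < 2 * Metric.infDist (v : M) K := by
      linarith [hρ v]
    exact (Metric.infDist_lt_iff hKne).mp this
  have hone : ∀ (v : V) (c : ℝ), |c| = 1 / Metric.infDist (v : M) K →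
      ∃ e ∈ Submodule.span ℝ (δ '' K), ‖Φ (c • Pi.single v 1) - e‖ ≤ 2 ^ p := by
    intro v c hc
    obtain ⟨k, hk, hkd⟩ := hnear v
    refine ⟨c • δ k, Submodule.smul_mem _ _ (Submodule.subset_span ⟨k, hk, rfl⟩), ?_⟩
    rw [map_smul, hΦsingle, ← smul_sub, hsmul, hc]
    calc (1 / Metric.infDist (v : M) K) ^ p * ‖δ v - δ k‖
        ≤ (1 / Metric.infDist (v : M) K) ^ p * (2 * Metric.infDist (v : M) K) ^ p := by
          refine mul_le_mul_of_nonneg_left ((hlip _ _).trans ?_) (Real.rpow_nonneg ?_ _)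
          · exact Real.rpow_le_rpow dist_nonneg hkd.le hp0.le
          · exact (one_div_pos.mpr (hρ v)).le
      _ = 2 ^ p := by
          rw [← Real.mul_rpow (one_div_pos.mpr (hρ v)).le (by linarith [hρ v])]
          congr 1
          have := (hρ v).ne'
          field_simp
  have hmolb : ∀ b ∈ Mol, ∃ e ∈ Submodule.span ℝ (δ '' K), ‖Φ b - e‖ ≤ 2 ^ p := by
    rintro b (⟨⟨v, w⟩, rfl⟩ | ⟨v, rfl⟩ | ⟨v, rfl⟩)
    · refine ⟨0, Submodule.zero_mem _, ?_⟩
      simp only [mol1, sub_zero, map_smul, map_sub, hΦsingle]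
      rw [hsmul]
      have h1p : (1 : ℝ) ≤ 2 ^ p := Real.one_le_rpow (by norm_num) hp0.le
      by_cases hvw : v = w
      · subst hvw; simp; positivity
      · have hd : 0 < dist (v : M) (w : M) := dist_pos.mpr (fun h => hvw (Subtype.ext h))
        calc |1 / dist (v : M) (w : M)| ^ p * ‖δ v - δ w‖
            ≤ (1 / dist (v : M) (w : M)) ^ p * dist (v : M) (w : M) ^ p := by
              rw [abs_of_pos (one_div_pos.mpr hd)]
              exact mul_le_mul_of_nonneg_left (hlip _ _)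
                (Real.rpow_nonneg (one_div_pos.mpr hd).le _)
          _ = 1 := by
              rw [← Real.mul_rpow (one_div_pos.mpr hd).le hd.le, one_div_mul_cancel hd.ne',
                Real.one_rpow]
          _ ≤ 2 ^ p := h1p
    · exact hone v _ (abs_of_pos (one_div_pos.mpr (hρ v)))
    · exact hone v _ (by rw [abs_neg]; exact abs_of_pos (one_div_pos.mpr (hρ v)))
  choose e he hen using fun i => hmolb (z i) (hz ⟨i, rfl⟩)
  refine ⟨∑ i, (t * w i) • e i, Submodule.sum_mem _ fun i _ => Submodule.smul_mem _ _ (he i), ?_⟩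
  have hy : ∑ v ∈ V, μ v • δ v = ∑ i, (t * w i) • Φ (z i) := by
    have h1 : μ' = t • ∑ i, w i • z i := by
      rw [hwz, smul_smul, mul_inv_cancel₀ ht.ne', one_smul]
    have h2 : Φ μ' = ∑ v ∈ V, μ v • δ v := by
      change ∑ v : V, μ v • δ v = _
      rw [Finset.sum_coe_sort V (fun v => μ v • δ v)]
    rw [← h2, h1, map_smul, map_sum, Finset.smul_sum]
    refine Finset.sum_congr rfl fun i _ => ?_
    rw [map_smul, smul_smul]
  rw [hy, ← Finset.sum_sub_distrib]
  calc ‖∑ i, ((t * w i) • Φ (z i) - (t * w i) • e i)‖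
      ≤ ∑ i, ‖(t * w i) • Φ (z i) - (t * w i) • e i‖ := norm_sum_le _ _
    _ ≤ ∑ i, (2 * t) ^ p * (w i) ^ p := by
        refine Finset.sum_le_sum fun i _ => ?_
        rw [← smul_sub, hsmul, abs_of_nonneg (mul_nonneg ht.le (hw i).le)]
        calc (t * w i) ^ p * ‖Φ (z i) - e i‖ ≤ (t * w i) ^ p * 2 ^ p :=
              mul_le_mul_of_nonneg_left (hen i) (Real.rpow_nonneg (mul_nonneg ht.le (hw i).le) _)
          _ = (2 * t) ^ p * (w i) ^ p := by
              rw [← Real.mul_rpow (mul_nonneg ht.le (hw i).le) (by norm_num),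
                ← Real.mul_rpow (by linarith) (hw i).le]
              congr 1; ring
    _ = (2 * t) ^ p * ∑ i, (w i) ^ p := by rw [Finset.mul_sum]
    _ ≤ (2 * t) ^ p * (Fintype.card ι : ℝ) ^ (1 - p) :=
        mul_le_mul_of_nonneg_left (sum_rpow_le w (fun i => (hw i).le) hp0 hp1 hw1.le)
          (Real.rpow_nonneg (by linarith) _)
    _ ≤ (2 * t) ^ p * ((V.card : ℝ) + 1) ^ (1 - p) := by
        refine mul_le_mul_of_nonneg_left ?_ (Real.rpow_nonneg (by linarith) _)
        exact Real.rpow_le_rpow (Nat.cast_nonneg _) hcard (by linarith)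
    _ = ((V.card : ℝ) + 1) ^ (1 - p) * (2 * t) ^ p := mul_comm _ _

end Pool.Agent.MP_259edd_an
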