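import Pool.Agent.MP_259edd_an.Normed

set_option autoImplicit false

namespace Pool.Agent.MP_259edd_an

open Filter Topology

universe u

section Finite

variable {p : ℝ} {M : Type u} [MetricSpace M]

/-- The boundary of a formal combination of pairs. -/
noncomputable def bd (M : Type u) : ((M × M) →₀ ℝ) →ₗ[ℝ] (M →₀ ℝ) :=
  Finsupp.linearCombination ℝ fun e : M × M => Finsupp.single e.1 (1 : ℝ) - Finsupp.single e.2 1

/-- The cost of a formal combination of pairs. -/
noncomputable def cost (p : ℝ) (α : (M × M) →₀ ℝ) : ℝ :=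
  α.sum fun e c => (|c| * dist e.1 e.2) ^ p

lemma cost_nonneg (α : (M × M) →₀ ℝ) : 0 ≤ cost p α :=
  Finset.sum_nonneg fun e _ => Real.rpow_nonneg (mul_nonneg (abs_nonneg _) dist_nonneg) _

lemma cost_zero : cost p (0 : (M × M) →₀ ℝ) = 0 := by
  simp [cost]

lemma cost_eq (hp0 : 0 < p) (α : (M × M) →₀ ℝ) (s : Finset (M × M)) (hs : α.support ⊆ s) :
    cost p α = ∑ e ∈ s, (|α e| * dist e.1 e.2) ^ p := by
  refine Finsupp.sum_of_support_subset α hs _ fun _ _ => ?_
  rw [abs_zero, zero_mul, Real.zero_rpow hp0.ne']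

lemma cost_add (hp0 : 0 < p) (hp1 : p ≤ 1) (α β : (M × M) →₀ ℝ) :
    cost p (α + β) ≤ cost p α + cost p β := by
  classical
  rw [cost_eq hp0 (α + β) (α.support ∪ β.support) Finsupp.support_add,
    cost_eq hp0 α (α.support ∪ β.support) Finset.subset_union_left,
    cost_eq hp0 β (α.support ∪ β.support) Finset.subset_union_right, ← Finset.sum_add_distrib]
  refine Finset.sum_le_sum fun e _ => ?_
  calc (|(α + β) e| * dist e.1 e.2) ^ p
      ≤ (|α e| * dist e.1 e.2 + |β e| * dist e.1 e.2) ^ p := by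
        refine Real.rpow_le_rpow (mul_nonneg (abs_nonneg _) dist_nonneg) ?_ hp0.le
        rw [← add_mul]
        exact mul_le_mul_of_nonneg_right (by rw [Finsupp.add_apply]; exact abs_add_le _ _)
          dist_nonneg
    _ ≤ _ := Real.rpow_add_le_add_rpow (mul_nonneg (abs_nonneg _) dist_nonneg)
        (mul_nonneg (abs_nonneg _) dist_nonneg) hp0.le hp1

lemma cost_smul (hp0 : 0 < p) (c : ℝ) (α : (M × M) →₀ ℝ) :
    cost p (c • α) = |c| ^ p * cost p α := by
  classical
  rw [cost_eq hp0 (c • α) α.support Finsupp.support_smul, cost_eq hp0 α α.support subset_rfl,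
    Finset.mul_sum]
  refine Finset.sum_congr rfl fun e _ => ?_
  rw [Finsupp.smul_apply, smul_eq_mul, abs_mul, mul_assoc,
    Real.mul_rpow (abs_nonneg _) (mul_nonneg (abs_nonneg _) dist_nonneg)]

/-- The set of costs of representations of `μ` modulo the base point. -/
def costs (p : ℝ) (o : M) (μ : M →₀ ℝ) : Set ℝ :=
  {r | ∃ (α : (M × M) →₀ ℝ) (c : ℝ), μ = bd M α + Finsupp.single o c ∧ r = cost p α}

/-- The `p`-th power of the free `p`-norm of a finitely supported function. -/
noncomputable def q (p : ℝ) (o : M) (μ : M →₀ ℝ) : ℝ := sInf (costs p o μ)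

lemma costs_nonempty (o : M) (μ : M →₀ ℝ) : (costs p o μ).Nonempty := by
  classical
  induction μ using Finsupp.induction_linear with
  | zero => exact ⟨_, 0, 0, by simp, rfl⟩
  | add μ ν hμ hν =>
    obtain ⟨_, α, c, h1, _⟩ := hμ
    obtain ⟨_, β, d, h2, _⟩ := hν
    refine ⟨_, α + β, c + d, ?_, rfl⟩
    rw [h1, h2, map_add, Finsupp.single_add]
    abel
  | single v a =>
    refine ⟨_, Finsupp.single (v, o) a, a, ?_, rfl⟩
    simp only [bd, Finsupp.linearCombination_single, smul_sub, Finsupp.smul_single, smul_eq_mul,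
      mul_one]
    abel

lemma costs_bdd (o : M) (μ : M →₀ ℝ) : BddBelow (costs p o μ) :=
  ⟨0, by rintro _ ⟨α, c, _, rfl⟩; exact cost_nonneg α⟩

lemma q_nonneg (o : M) (μ : M →₀ ℝ) : 0 ≤ q p o μ :=
  le_csInf (costs_nonempty o μ) (by rintro _ ⟨α, c, _, rfl⟩; exact cost_nonneg α)

lemma q_le (o : M) (μ : M →₀ ℝ) (α : (M × M) →₀ ℝ) (c : ℝ)
    (h : μ = bd M α + Finsupp.single o c) : q p o μ ≤ cost p α :=
  csInf_le (costs_bdd o μ) ⟨α, c, h, rfl⟩

lemma exists_rep (o : M) (μ : M →₀ ℝ) (ε : ℝ) (hε : 0 < ε) : ∃ (α : (M × M) →₀ ℝ) (c : ℝ),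
    μ = bd M α + Finsupp.single o c ∧ cost p α < q p o μ + ε := by
  obtain ⟨_, ⟨α, c, h, rfl⟩, hlt⟩ := exists_lt_of_csInf_lt (costs_nonempty (p := p) o μ)
    (show sInf (costs p o μ) < q p o μ + ε by simp only [q]; linarith)
  exact ⟨α, c, h, hlt⟩

lemma q_add (hp0 : 0 < p) (hp1 : p ≤ 1) (o : M) (μ ν : M →₀ ℝ) :
    q p o (μ + ν) ≤ q p o μ + q p o ν := by
  refine le_of_forall_pos_le_add fun ε hε => ?_
  obtain ⟨α, c, h1, h2⟩ := exists_rep (p := p) o μ (ε / 2) (by linarith)
  obtain ⟨β, d, h3, h4⟩ := exists_rep (p := p) o ν (ε / 2) (by linarith)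
  have h5 : μ + ν = bd M (α + β) + Finsupp.single o (c + d) := by
    rw [h1, h3, map_add, Finsupp.single_add]
    abel
  have := q_le (p := p) o (μ + ν) _ _ h5
  have := cost_add hp0 hp1 α β
  linarith

lemma q_smul_le (hp0 : 0 < p) (o : M) (c : ℝ) (μ : M →₀ ℝ) :
    q p o (c • μ) ≤ |c| ^ p * q p o μ := by
  refine le_of_forall_pos_le_add fun ε hε => ?_
  have hc : 0 ≤ |c| ^ p := Real.rpow_nonneg (abs_nonneg _) _
  obtain ⟨α, d, h1, h2⟩ := exists_rep (p := p) o μ (ε / (|c| ^ p + 1)) (by positivity)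
  have h3 : c • μ = bd M (c • α) + Finsupp.single o (c * d) := by
    rw [h1, map_smul, smul_add, Finsupp.smul_single, smul_eq_mul]
  have h4 := q_le (p := p) o (c • μ) _ _ h3
  rw [cost_smul hp0] at h4
  have h5 : |c| ^ p * (ε / (|c| ^ p + 1)) ≤ ε := by
    rw [mul_div_assoc', div_le_iff₀ (by positivity)]
    nlinarith
  have h6 := mul_le_mul_of_nonneg_left h2.le hc
  rw [mul_add] at h6
  linarith

lemma q_smul (hp0 : 0 < p) (o : M) (c : ℝ) (μ : M →₀ ℝ) :
    q p o (c • μ) = |c| ^ p * q p o μ := by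
  refine le_antisymm (q_smul_le hp0 o c μ) ?_
  by_cases hc : c = 0
  · subst hc
    rw [abs_zero, Real.zero_rpow hp0.ne', zero_mul]
    exact q_nonneg o _
  · have h1 := q_smul_le hp0 o c⁻¹ (c • μ)
    rw [smul_smul, inv_mul_cancel₀ hc, one_smul, abs_inv, Real.inv_rpow (abs_nonneg _)] at h1
    have h2 : 0 < |c| ^ p := Real.rpow_pos_of_pos (abs_pos.mpr hc) _
    rw [inv_mul_eq_div, le_div_iff₀ h2] at h1
    linarith

lemma q_zero (o : M) : q p o (0 : M →₀ ℝ) = 0 := by
  refine le_antisymm ?_ (q_nonneg o _)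
  have := q_le (p := p) o (0 : M →₀ ℝ) 0 0 (by simp)
  rwa [cost_zero] at this

lemma q_single (o : M) (c : ℝ) : q p o (Finsupp.single o c) = 0 := by
  refine le_antisymm ?_ (q_nonneg o _)
  have := q_le (p := p) o (Finsupp.single o c) 0 c (by simp)
  rwa [cost_zero] at this

lemma q_pair (hp0 : 0 < p) (o v w : M) :
    q p o (Finsupp.single v 1 - Finsupp.single w 1) ≤ dist v w ^ p := by
  have := q_le (p := p) o (Finsupp.single v 1 - Finsupp.single w 1)
    (Finsupp.single (v, w) 1) 0 (by simp [bd])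
  refine this.trans (le_of_eq ?_)
  rw [cost, Finsupp.sum_single_index]
  · simp
  · rw [abs_zero, zero_mul, Real.zero_rpow hp0.ne']

end Finite

/-- Finitely supported functions with the free `p`-seminorm. -/
def PreFree (_p : ℝ) (M : Type u) (_o : M) : Type u := M →₀ ℝ

variable {p : ℝ} {M : Type u} {o : M}

noncomputable instance : AddCommGroup (PreFree p M o) := inferInstanceAs (AddCommGroup (M →₀ ℝ))

noncomputable instance : Module ℝ (PreFree p M o) := inferInstanceAs (Module ℝ (M →₀ ℝ))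

variable [MetricSpace M] [Fact (0 < p)] [Fact (p ≤ 1)]

noncomputable instance : SeminormedAddCommGroup (PreFree p M o) :=
  AddGroupSeminorm.toSeminormedAddCommGroup
    { toFun := fun μ => q p o (μ : M →₀ ℝ)
      map_zero' := q_zero o
      add_le' := q_add Fact.out Fact.out o
      neg' := fun μ => by
        have := q_smul (p := p) Fact.out o (-1) (μ : M →₀ ℝ)
        rw [neg_one_smul, abs_neg, abs_one, Real.one_rpow, one_mul] at this
        exact this }

lemma preFree_norm (μ : PreFree p M o) : ‖μ‖ = q p o (μ : M →₀ ℝ) := rfl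

lemma preFree_norm_smul (c : ℝ) (μ : PreFree p M o) : ‖c • μ‖ = |c| ^ p * ‖μ‖ :=
  q_smul (p := p) Fact.out o c (μ : M →₀ ℝ)

instance : ContinuousConstSMul ℝ (PreFree p M o) where
  continuous_const_smul c := by
    have hc : 0 ≤ |c| ^ p := Real.rpow_nonneg (abs_nonneg _) _
    have : LipschitzWith ⟨|c| ^ p, hc⟩ fun μ : PreFree p M o => c • μ := by
      refine LipschitzWith.of_dist_le_mul fun μ ν => ?_
      rw [dist_eq_norm, dist_eq_norm, ← smul_sub, preFree_norm_smul]
      exact le_rfl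
    exact this.continuous

instance : UniformContinuousConstSMul ℝ (PreFree p M o) :=
  uniformContinuousConstSMul_of_continuousConstSMul _ _

/-- The Lipschitz free `p`-space as a completion. -/
abbrev FreeP (p : ℝ) (M : Type u) (o : M) [MetricSpace M] [Fact (0 < p)] [Fact (p ≤ 1)] : Type u :=
  UniformSpace.Completion (PreFree p M o)

lemma freeP_norm_smul (c : ℝ) (x : FreeP p M o) : ‖c • x‖ = |c| ^ p * ‖x‖ := by
  induction x using UniformSpace.Completion.induction_on with
  | hp => exact isClosed_eq (continuous_norm.comp (continuous_const_smul c))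
            (continuous_const.mul continuous_norm)
  | ih μ =>
    rw [← UniformSpace.Completion.coe_smul, UniformSpace.Completion.norm_coe,
      UniformSpace.Completion.norm_coe, preFree_norm_smul]

/-- The identification of finitely supported functions with `PreFree`. -/
noncomputable def toPre (p : ℝ) (M : Type u) (o : M) : (M →₀ ℝ) ≃ₗ[ℝ] PreFree p M o :=
  LinearEquiv.refl ℝ (M →₀ ℝ)

lemma norm_toPre (μ : M →₀ ℝ) : ‖toPre p M o μ‖ = q p o μ := rfl

/-- The linear inclusion of finitely supported functions. -/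
noncomputable def incl (p : ℝ) (M : Type u) (o : M) [MetricSpace M] [Fact (0 < p)]
    [Fact (p ≤ 1)] : (M →₀ ℝ) →ₗ[ℝ] FreeP p M o where
  toFun μ := ((toPre p M o μ : PreFree p M o) : FreeP p M o)
  map_add' μ ν := by
    rw [map_add, UniformSpace.Completion.coe_add]
  map_smul' c μ := by
    rw [map_smul, UniformSpace.Completion.coe_smul, RingHom.id_apply]

lemma incl_norm (μ : M →₀ ℝ) : ‖incl p M o μ‖ = q p o μ := by
  change ‖((toPre p M o μ : PreFree p M o) : FreeP p M o)‖ = _
  rw [UniformSpace.Completion.norm_coe, norm_toPre]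

/-- The canonical map into the completion. -/
noncomputable def canon (p : ℝ) (M : Type u) (o : M) [MetricSpace M] [Fact (0 < p)]
    [Fact (p ≤ 1)] (v : M) : FreeP p M o :=
  incl p M o (Finsupp.single v 1)

lemma canon_base : canon p M o o = 0 := by
  rw [← norm_eq_zero, canon, incl_norm]
  exact q_single o 1

lemma canon_sub (v w : M) : ‖canon p M o v - canon p M o w‖ ≤ dist v w ^ p := by
  rw [canon, canon, ← map_sub, incl_norm]
  exact q_pair Fact.out o v w

lemma incl_eq (μ : M →₀ ℝ) : incl p M o μ = μ.sum fun v c => c • canon p M o v := by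
  have h1 : incl p M o = Finsupp.linearCombination ℝ (canon p M o) := by
    refine Finsupp.lhom_ext' fun v => LinearMap.ext_ring ?_
    simp only [LinearMap.comp_apply, Finsupp.lsingle_apply, Finsupp.linearCombination_single,
      one_smul]
    rfl
  rw [h1, Finsupp.linearCombination_apply]

end Pool.Agent.MP_259edd_an
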