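import Pool.Agent.MP_259edd_an.Annihilator

set_option autoImplicit false

namespace Pool.Agent.MP_259edd_an

open Finset Filter Topology

universe u

variable {p : ℝ} {M : Type u} [MetricSpace M] {o : M} {F : Type u} [NormedAddCommGroup F]
  [Module ℝ F] {δ : M → F}

/-- The functional of `g` (if it exists) kills the set `S`. -/
def Kill (p : ℝ) (δ : M → F) (S : Set F) (g : M → ℝ) : Prop :=
  ∀ T : F →ₗ[ℝ] ℝ, (∀ v, T (δ v) = g v) → (∃ L, ∀ z, |T z| ≤ L * ‖z‖ ^ (1 / p)) → ∀ x ∈ S, T x = 0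

/-- Uniqueness of functionals. -/
lemma Core.funct_unique (h : Core p o δ) (T T' : F →ₗ[ℝ] ℝ) (hδ : ∀ v, T (δ v) = T' (δ v))
    (hT : ∃ L, ∀ z, |T z| ≤ L * ‖z‖ ^ (1 / p)) (hT' : ∃ L, ∀ z, |T' z| ≤ L * ‖z‖ ^ (1 / p)) :
    T = T' := by
  obtain ⟨L, hL⟩ := hT
  obtain ⟨L', hL'⟩ := hT'
  have h1 : Continuous T := continuous_of_bound h.hp0 T L hL
  have h2 : Continuous T' := continuous_of_bound h.hp0 T' L' hL'
  have h3 : Dense ((Submodule.span ℝ (Set.range δ) : Submodule ℝ F) : Set F) := by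
    intro x
    rw [Metric.mem_closure_iff]
    intro ε hε
    obtain ⟨y, hy, hxy⟩ := h.dense x ε hε
    exact ⟨y, hy, by rwa [dist_eq_norm]⟩
  have h4 : (T : F → ℝ) = T' := by
    refine Continuous.ext_on h3 h1 h2 ?_
    intro y hy
    refine Submodule.span_induction (p := fun y _ => T y = T' y) ?_ ?_ ?_ ?_ hy
    · rintro _ ⟨v, rfl⟩
      exact hδ v
    · rw [map_zero, map_zero]
    · intro a b _ _ ha hb
      rw [map_add, map_add, ha, hb]
    · intro c a _ ha
      rw [map_smul, map_smul, ha]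
  exact LinearMap.ext fun x => congrFun h4 x

lemma Core.kill_of_exists (h : Core p o δ) {S : Set F} {g : M → ℝ} (T : F →ₗ[ℝ] ℝ)
    (hδ : ∀ v, T (δ v) = g v) (hT : ∃ L, ∀ z, |T z| ≤ L * ‖z‖ ^ (1 / p))
    (hS : ∀ x ∈ S, T x = 0) : Kill p δ S g := by
  intro T' hδ' hT' x hx
  have : T' = T := h.funct_unique T' T (fun v => by rw [hδ, hδ']) hT' hT
  rw [this]
  exact hS x hx

lemma Core.kill_add (h : Core p o δ) {S : Set F} {g₁ g₂ : M → ℝ} {L₁ L₂ : ℝ} (hL₁ : 0 ≤ L₁)
    (hL₂ : 0 ≤ L₂) (ho₁ : g₁ o = 0) (ho₂ : g₂ o = 0) (h₁ : ∀ v w, |g₁ v - g₁ w| ≤ L₁ * dist v w)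
    (h₂ : ∀ v w, |g₂ v - g₂ w| ≤ L₂ * dist v w) (hk₁ : Kill p δ S g₁) (hk₂ : Kill p δ S g₂) :
    Kill p δ S (fun v => g₁ v + g₂ v) := by
  obtain ⟨T₁, hT₁, hb₁⟩ := h.funct g₁ ho₁ L₁ hL₁ h₁
  obtain ⟨T₂, hT₂, hb₂⟩ := h.funct g₂ ho₂ L₂ hL₂ h₂
  refine h.kill_of_exists (T₁ + T₂) (fun v => ?_) ⟨L₁ + L₂, fun z => ?_⟩ fun x hx => ?_
  · rw [LinearMap.add_apply, hT₁, hT₂]
  · rw [LinearMap.add_apply, add_mul]
    exact (abs_add_le _ _).trans (add_le_add (hb₁ z) (hb₂ z))
  · rw [LinearMap.add_apply, hk₁ T₁ hT₁ ⟨_, hb₁⟩ x hx, hk₂ T₂ hT₂ ⟨_, hb₂⟩ x hx, add_zero]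

lemma Core.kill_neg (h : Core p o δ) {S : Set F} {g : M → ℝ} {L : ℝ} (hL : 0 ≤ L)
    (ho : g o = 0) (h₁ : ∀ v w, |g v - g w| ≤ L * dist v w) (hk : Kill p δ S g) :
    Kill p δ S (fun v => -g v) := by
  obtain ⟨T₁, hT₁, hb₁⟩ := h.funct g ho L hL h₁
  refine h.kill_of_exists (-T₁) (fun v => ?_) ⟨L, fun z => ?_⟩ fun x hx => ?_
  · rw [LinearMap.neg_apply, hT₁]
  · rw [LinearMap.neg_apply, abs_neg]
    exact hb₁ z
  · rw [LinearMap.neg_apply, hk T₁ hT₁ ⟨_, hb₁⟩ x hx, neg_zero]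

/-- Closedness of `Kill` under bounded pointwise approximation. -/
lemma Core.kill_closed (h : Core p o δ) {S : Set F} {g : M → ℝ} {L : ℝ} (hL : 0 ≤ L)
    (ho : g o = 0) (h₁ : ∀ v w, |g v - g w| ≤ L * dist v w)
    (happ : ∀ V : Finset M, ∀ η > 0, ∃ g' : M → ℝ, g' o = 0 ∧
      (∀ v w, |g' v - g' w| ≤ L * dist v w) ∧ (∀ v ∈ V, |g' v - g v| ≤ η) ∧ Kill p δ S g') :
    Kill p δ S g := by
  obtain ⟨T, hT, hb⟩ := h.funct g ho L hL h₁
  refine h.kill_of_exists T hT ⟨L, hb⟩ fun x hx => ?_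
  have hkey : ∀ ε > 0, |T x| ≤ ε := by
    intro ε hε
    -- choose `y` close to `x`
    have hcont : Tendsto (fun r : ℝ => L * r ^ (1 / p)) (𝓝[>] 0) (𝓝 0) := by
      have h2 : Tendsto (fun r : ℝ => r ^ (1 / p)) (𝓝 0) (𝓝 ((0 : ℝ) ^ (1 / p))) :=
        Tendsto.rpow_const tendsto_id (Or.inr (one_div_pos.mpr h.hp0).le)
      rw [Real.zero_rpow (one_div_pos.mpr h.hp0).ne'] at h2
      simpa using (h2.const_mul L).mono_left nhdsWithin_le_nhds
    obtain ⟨ρ, hρ1, hρ0⟩ := ((hcont.eventually (Iio_mem_nhds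
      (show (0 : ℝ) < ε / 4 by linarith))).and self_mem_nhdsWithin).exists
    obtain ⟨y, hy, hxy⟩ := h.dense x ρ hρ0
    obtain ⟨c, rfl⟩ := (Finsupp.mem_span_range_iff_exists_finsupp).mp hy
    obtain ⟨g', hg'o, hg'L, hg'V, hg'k⟩ := happ c.support
      (ε / 4 / (1 + ∑ v ∈ c.support, |c v|)) (by
        have : 0 ≤ ∑ v ∈ c.support, |c v| := Finset.sum_nonneg fun v _ => abs_nonneg _
        positivity)
    obtain ⟨T', hT', hb'⟩ := h.funct g' hg'o L hL hg'L
    have hx' : T' x = 0 := hg'k T' hT' ⟨_, hb'⟩ x hx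
    set y : F := c.sum fun i a => a • δ i with hydef
    have hsmall : ∀ z : F, ‖z‖ < ρ → L * ‖z‖ ^ (1 / p) ≤ ε / 4 := by
      intro z hz
      refine le_trans ?_ hρ1.le
      exact mul_le_mul_of_nonneg_left
        (Real.rpow_le_rpow (norm_nonneg _) hz.le (one_div_pos.mpr h.hp0).le) hL
    have e1 : |T (x - y)| ≤ ε / 4 := (hb _).trans (hsmall _ hxy)
    have e2 : |T' (x - y)| ≤ ε / 4 := (hb' _).trans (hsmall _ hxy)
    have e3 : |T y - T' y| ≤ ε / 4 := by
      have h3 : T y - T' y = ∑ v ∈ c.support, c v * (g v - g' v) := by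
        rw [hydef, Finsupp.sum, map_sum, map_sum, ← Finset.sum_sub_distrib]
        refine Finset.sum_congr rfl fun v _ => ?_
        rw [map_smul, map_smul, hT, hT', smul_eq_mul, smul_eq_mul]; ring
      rw [h3]
      have hs : 0 ≤ ∑ v ∈ c.support, |c v| := Finset.sum_nonneg fun v _ => abs_nonneg _
      calc |∑ v ∈ c.support, c v * (g v - g' v)|
          ≤ ∑ v ∈ c.support, |c v * (g v - g' v)| := Finset.abs_sum_le_sum_abs _ _
        _ ≤ ∑ v ∈ c.support, |c v| * (ε / 4 / (1 + ∑ v ∈ c.support, |c v|)) := by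
            refine Finset.sum_le_sum fun v hv => ?_
            rw [abs_mul]
            refine mul_le_mul_of_nonneg_left ?_ (abs_nonneg _)
            rw [abs_sub_comm]
            exact hg'V v hv
        _ = (∑ v ∈ c.support, |c v|) / (1 + ∑ v ∈ c.support, |c v|) * (ε / 4) := by
            rw [← Finset.sum_mul]; ring
        _ ≤ 1 * (ε / 4) := by
            refine mul_le_mul_of_nonneg_right ?_ (by linarith)
            rw [div_le_one (by linarith)]
            linarith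
        _ = ε / 4 := one_mul _
    have e4 : T x = T (x - y) + (T y - T' y) - T' (x - y) := by
      rw [map_sub, map_sub, hx']; ring
    rw [e4]
    have := abs_sub (T (x - y) + (T y - T' y)) (T' (x - y))
    have := abs_add_le (T (x - y)) (T y - T' y)
    linarith
  by_contra hne
  have := hkey (|T x| / 2) (by positivity)
  have h5 : 0 < |T x| := abs_pos.mpr hne
  linarith

/-- Multiplication operators. -/
lemma Core.mult_exists (h : Core p o δ) (φ : M → ℝ) {A B R : ℝ} (hA : 0 ≤ A) (hB : 0 ≤ B)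
    (hR : 0 ≤ R) (hφA : ∀ v w, |φ v - φ w| ≤ A * dist v w) (hφB : ∀ v, |φ v| ≤ B)
    (hφR : ∀ v, R < dist v o → φ v = 0) :
    ∃ (W : F →ₗ[ℝ] F) (C : ℝ), 0 ≤ C ∧ (∀ v, W (δ v) = φ v • δ v) ∧ ∀ z, ‖W z‖ ≤ C * ‖z‖ := by
  have hp0 := h.hp0
  let C : ℝ := (A * R) ^ p + B ^ p
  have hC : 0 ≤ C := by positivity
  have hδ : ∀ v, ‖δ v‖ ≤ dist v o ^ p := fun v => by
    have := h.delta_lip v o
    rwa [h.delta_o, sub_zero] at this
  have hcase : ∀ v w, dist v o ≤ R → ‖φ v • δ v - φ w • δ w‖ ≤ C * dist v w ^ p := by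
    intro v w hv
    have e1 : φ v • δ v - φ w • δ w = (φ v - φ w) • δ v + φ w • (δ v - δ w) := by
      rw [sub_smul, smul_sub]; abel
    rw [e1]
    refine (norm_add_le _ _).trans ?_
    rw [h.hsmul, h.hsmul, add_mul]
    refine add_le_add ?_ ?_
    · calc |φ v - φ w| ^ p * ‖δ v‖ ≤ (A * dist v w) ^ p * R ^ p := by
            refine mul_le_mul (Real.rpow_le_rpow (abs_nonneg _) (hφA v w) hp0.le)
              ((hδ v).trans (Real.rpow_le_rpow dist_nonneg hv hp0.le)) (norm_nonneg _)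
              (by positivity)
        _ = (A * R) ^ p * dist v w ^ p := by
            rw [Real.mul_rpow hA dist_nonneg, Real.mul_rpow hA hR]; ring
    · exact mul_le_mul (Real.rpow_le_rpow (abs_nonneg _) (hφB w) hp0.le) (h.delta_lip v w)
        (norm_nonneg _) (by positivity)
  obtain ⟨W, hW1, hW2⟩ := h.mult φ C hC (by
    intro v w
    by_cases hv : dist v o ≤ R
    · exact hcase v w hv
    · by_cases hw : dist w o ≤ R
      · rw [norm_sub_rev, dist_comm v w]
        exact hcase w v hw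
      · rw [hφR v (not_le.mp hv), hφR w (not_le.mp hw), zero_smul, zero_smul, sub_zero, norm_zero]
        positivity)
  exact ⟨W, C, hC, hW1, hW2⟩

/-- The intersection of the closed spans. -/
def Sinf {ι : Type*} (δ : M → F) (K : ι → Set M) : Set F :=
  {x | ∀ n, ∀ ε > 0, ∃ y ∈ Submodule.span ℝ (δ '' K n), ‖x - y‖ < ε}

lemma Core.kill_mul (h : Core p o δ) {ι : Type*} {K : ι → Set M} {g φ : M → ℝ} {L A B R : ℝ} (hL : 0 ≤ L)
    (hA : 0 ≤ A) (hB : 0 ≤ B) (hR : 0 ≤ R) (ho : g o = 0)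
    (h₁ : ∀ v w, |g v - g w| ≤ L * dist v w)
    (hφA : ∀ v w, |φ v - φ w| ≤ A * dist v w) (hφB : ∀ v, |φ v| ≤ B)
    (hφR : ∀ v, R < dist v o → φ v = 0) (hk : Kill p δ (Sinf δ K) g) :
    Kill p δ (Sinf δ K) (fun v => g v * φ v) := by
  obtain ⟨W, C, hC, hW1, hW2⟩ := h.mult_exists φ hA hB hR hφA hφB hφR
  obtain ⟨T, hT, hb⟩ := h.funct g ho L hL h₁
  have hp0 := h.hp0
  refine h.kill_of_exists (T.comp W) (fun v => ?_) ⟨L * C ^ (1 / p), fun z => ?_⟩ fun x hx => ?_
  · rw [LinearMap.comp_apply, hW1, map_smul, hT, smul_eq_mul, mul_comm]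
  · rw [LinearMap.comp_apply]
    refine (hb _).trans ?_
    rw [mul_assoc]
    refine mul_le_mul_of_nonneg_left ?_ hL
    rw [← Real.mul_rpow hC (norm_nonneg _)]
    exact Real.rpow_le_rpow (norm_nonneg _) (hW2 z) (one_div_pos.mpr hp0).le
  · rw [LinearMap.comp_apply]
    refine hk T hT ⟨_, hb⟩ _ ?_
    intro n ε hε
    obtain ⟨y, hy, hxy⟩ := hx n (ε / (C + 1)) (by positivity)
    refine ⟨W y, ?_, ?_⟩
    · refine Submodule.span_induction (p := fun y _ => W y ∈ Submodule.span ℝ (δ '' K n))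
        ?_ ?_ ?_ ?_ hy
      · rintro _ ⟨v, hv, rfl⟩
        rw [hW1]
        exact Submodule.smul_mem _ _ (Submodule.subset_span ⟨v, hv, rfl⟩)
      · rw [map_zero]; exact Submodule.zero_mem _
      · intro a b _ _ ha hb
        rw [map_add]; exact Submodule.add_mem _ ha hb
      · intro c a _ ha
        rw [map_smul]; exact Submodule.smul_mem _ _ ha
    · rw [← map_sub]
      refine (hW2 _).trans_lt ?_
      calc C * ‖x - y‖ ≤ (C + 1) * ‖x - y‖ := by
            refine mul_le_mul_of_nonneg_right (by linarith) (norm_nonneg _)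
        _ < (C + 1) * (ε / (C + 1)) := by
            refine mul_lt_mul_of_pos_left hxy (by linarith)
        _ = ε := by field_simp

/-- The order ideal property. -/
lemma Core.kill_ideal (h : Core p o δ) {ι : Type*} {K : ι → Set M} {g f : M → ℝ} {L A R : ℝ} (hL : 0 ≤ L)
    (hA : 0 ≤ A) (hR : 0 ≤ R) (ho : g o = 0) (h₁ : ∀ v w, |g v - g w| ≤ L * dist v w)
    (hf : ∀ v w, |f v - f w| ≤ A * dist v w) (hf0 : ∀ v, 0 ≤ f v) (hfg : ∀ v, f v ≤ g v)
    (hfR : ∀ v, R < dist v o → f v = 0) (hk : Kill p δ (Sinf δ K) g) :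
    Kill p δ (Sinf δ K) f := by
  have hg0 : ∀ v, 0 ≤ g v := fun v => (hf0 v).trans (hfg v)
  have hfo : f o = 0 := le_antisymm ((hfg o).trans ho.le) (hf0 o)
  refine h.kill_closed (L := A + L) (by linarith) hfo (fun v w => ?_) fun V η hη => ?_
  · refine (hf v w).trans (mul_le_mul_of_nonneg_right (by linarith) dist_nonneg)
  · let φ : M → ℝ := fun v => f v / (g v + η)
    have hpos : ∀ v, 0 < g v + η := fun v => by linarith [hg0 v]
    have hφ0 : ∀ v, 0 ≤ φ v := fun v => div_nonneg (hf0 v) (hpos v).le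
    have hφ1 : ∀ v, φ v ≤ 1 := fun v => by
      rw [div_le_one (hpos v)]; linarith [hfg v]
    refine ⟨fun v => g v * φ v, by simp only [ho, zero_mul], fun v w => ?_, fun v _ => ?_, ?_⟩
    · -- Lipschitz bound for the product
      have e1 : g v * φ v - g w * φ w
          = g v / (g v + η) * (f v - f w) + f w * η * (g v - g w) / ((g v + η) * (g w + η)) := by
        simp only [φ]
        field_simp [(hpos v).ne', (hpos w).ne']
        ring
      rw [e1]
      refine (abs_add_le _ _).trans ?_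
      rw [add_mul A L]
      refine add_le_add ?_ ?_
      · rw [abs_mul, abs_of_nonneg (div_nonneg (hg0 v) (hpos v).le)]
        calc g v / (g v + η) * |f v - f w| ≤ 1 * |f v - f w| := by
              refine mul_le_mul_of_nonneg_right ?_ (abs_nonneg _)
              rw [div_le_one (hpos v)]; linarith
          _ ≤ A * dist v w := by rw [one_mul]; exact hf v w
      · have e2 : f w * η * (g v - g w) / ((g v + η) * (g w + η))
            = (φ w * (η / (g v + η))) * (g v - g w) := by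
          simp only [φ]
          field_simp [(hpos v).ne', (hpos w).ne']
        rw [e2, abs_mul, abs_of_nonneg (mul_nonneg (hφ0 w) (div_nonneg hη.le (hpos v).le))]
        have e3 : η / (g v + η) ≤ 1 := by
          rw [div_le_one (hpos v)]; linarith [hg0 v]
        calc φ w * (η / (g v + η)) * |g v - g w| ≤ 1 * |g v - g w| := by
              refine mul_le_mul_of_nonneg_right ?_ (abs_nonneg _)
              exact mul_le_one₀ (hφ1 w) (div_nonneg hη.le (hpos v).le) e3
          _ ≤ L * dist v w := by rw [one_mul]; exact h₁ v w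
    · have e1 : g v * φ v - f v = -(φ v * η) := by
        simp only [φ]
        field_simp [(hpos v).ne']
        ring
      rw [e1, abs_neg, abs_of_nonneg (mul_nonneg (hφ0 v) hη.le)]
      calc φ v * η ≤ 1 * η := mul_le_mul_of_nonneg_right (hφ1 v) hη.le
        _ = η := one_mul _
    · refine h.kill_mul (A := (A + L) / η) (B := 1) (R := R) hL
        (div_nonneg (by linarith) hη.le) zero_le_one hR ho h₁ (fun v w => ?_) (fun v => ?_)
        (fun v hv => ?_) hk
      · have e1 : φ v - φ w = (f v - f w) / (g v + η)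
            - φ w * ((g v - g w) / (g v + η)) := by
          simp only [φ]
          field_simp [(hpos v).ne', (hpos w).ne']
          ring
        rw [e1]
        have e2 : |(f v - f w) / (g v + η)| ≤ A / η * dist v w := by
          rw [abs_div, abs_of_pos (hpos v), div_mul_eq_mul_div]
          exact div_le_div₀ (mul_nonneg hA dist_nonneg) (hf v w) hη (by linarith [hg0 v])
        have e3 : |φ w * ((g v - g w) / (g v + η))| ≤ L / η * dist v w := by
          rw [abs_mul, abs_of_nonneg (hφ0 w), abs_div, abs_of_pos (hpos v),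
            div_mul_eq_mul_div L η]
          calc φ w * (|g v - g w| / (g v + η)) ≤ 1 * (|g v - g w| / (g v + η)) :=
                mul_le_mul_of_nonneg_right (hφ1 w) (div_nonneg (abs_nonneg _) (hpos v).le)
            _ = |g v - g w| / (g v + η) := one_mul _
            _ ≤ L * dist v w / η :=
                div_le_div₀ (mul_nonneg hL dist_nonneg) (h₁ v w) hη (by linarith [hg0 v])
        refine (abs_sub _ _).trans ?_
        rw [add_div, add_mul]
        exact add_le_add e2 e3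
      · rw [abs_of_nonneg (hφ0 v)]; exact hφ1 v
      · simp only [φ, hfR v hv, zero_div]

end Pool.Agent.MP_259edd_an
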