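import Pool.Agent.MP_259edd_an.Defs

set_option autoImplicit false

namespace Pool.Agent.MP_259edd_an

open Filter Topology

universe u

variable {p : ℝ}

/-- A complete normed group with `‖c • x‖ = |c| ^ p * ‖x‖` is a `p`-Banach space for
`‖x‖ ^ (1 / p)`. -/
lemma isPBanach_of_normed (hp0 : 0 < p) {X : Type u} [NormedAddCommGroup X] [Module ℝ X]
    [CompleteSpace X] (hsmul : ∀ (c : ℝ) (x : X), ‖c • x‖ = |c| ^ p * ‖x‖) :
    IsPBanach p (fun x : X => ‖x‖ ^ (1 / p)) where
  nonneg x := Real.rpow_nonneg (norm_nonneg _) _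
  eq_zero x hx := by
    rw [Real.rpow_eq_zero (norm_nonneg _) (one_div_pos.mpr hp0).ne'] at hx
    exact norm_eq_zero.mp hx
  smul c x := by
    rw [hsmul, Real.mul_rpow (Real.rpow_nonneg (abs_nonneg _) _) (norm_nonneg _),
      ← Real.rpow_mul (abs_nonneg _), mul_one_div_cancel hp0.ne', Real.rpow_one]
  add_le x y := by
    rw [← Real.rpow_mul (norm_nonneg _), ← Real.rpow_mul (norm_nonneg _),
      ← Real.rpow_mul (norm_nonneg _), one_div_mul_cancel hp0.ne', Real.rpow_one, Real.rpow_one,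
      Real.rpow_one]
    exact norm_add_le x y
  complete s hs := by
    have h1 : ∀ (z : X) (ε : ℝ), 0 < ε → ‖z‖ ^ (1 / p) < ε ^ (1 / p) → ‖z‖ < ε := by
      intro z ε hε h
      exact (Real.rpow_lt_rpow_iff (norm_nonneg _) hε.le (one_div_pos.mpr hp0)).mp h
    have h2 : CauchySeq s := by
      rw [Metric.cauchySeq_iff]
      intro ε hε
      obtain ⟨k, hk⟩ := hs (ε ^ (1 / p)) (Real.rpow_pos_of_pos hε _)
      refine ⟨k, fun m hm n hn => ?_⟩
      rw [dist_eq_norm]
      exact h1 _ ε hε (hk m hm n hn)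
    obtain ⟨x, hx⟩ := cauchySeq_tendsto_of_complete h2
    refine ⟨x, fun ε hε => ?_⟩
    rw [Metric.tendsto_atTop] at hx
    obtain ⟨k, hk⟩ := hx (ε ^ p) (Real.rpow_pos_of_pos hε _)
    refine ⟨k, fun n hn => ?_⟩
    have h3 := hk n hn
    rw [dist_eq_norm] at h3
    have h4 := Real.rpow_lt_rpow (norm_nonneg _) h3 (one_div_pos.mpr hp0)
    rwa [← Real.rpow_mul hε.le, mul_one_div_cancel hp0.ne', Real.rpow_one] at h4

/-- The normed group structure of a `p`-Banach space. -/
@[reducible] noncomputable def IsPBanach.toNormed (hp0 : 0 < p) {X : Type u} [AddCommGroup X]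
    [Module ℝ X] {N : X → ℝ} (h : IsPBanach p N) : NormedAddCommGroup X :=
  AddGroupNorm.toNormedAddCommGroup
    { toFun := fun x => N x ^ p
      map_zero' := by
        have : N 0 = 0 := by
          have := h.smul 0 (0 : X)
          simpa using this
        rw [this, Real.zero_rpow hp0.ne']
      add_le' := h.add_le
      neg' := by
        intro x
        have := h.smul (-1) x
        rw [neg_one_smul, abs_neg, abs_one, one_mul] at this
        rw [this]
      eq_zero_of_map_eq_zero' := by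
        intro x hx
        rw [Real.rpow_eq_zero (h.nonneg x) hp0.ne'] at hx
        exact h.eq_zero x hx }

lemma IsPBanach.norm_def (hp0 : 0 < p) {X : Type u} [AddCommGroup X]
    [Module ℝ X] {N : X → ℝ} (h : IsPBanach p N) (x : X) :
    @norm X (h.toNormed hp0).toNorm x = N x ^ p := rfl

lemma IsPBanach.completeSpace (hp0 : 0 < p) {X : Type u} [AddCommGroup X]
    [Module ℝ X] {N : X → ℝ} (h : IsPBanach p N) :
    @CompleteSpace X (h.toNormed hp0).toMetricSpace.toPseudoMetricSpace.toUniformSpace := by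
  let _ := h.toNormed hp0
  have hN : ∀ x : X, ‖x‖ = N x ^ p := fun x => rfl
  refine Metric.complete_of_cauchySeq_tendsto fun s hs => ?_
  rw [Metric.cauchySeq_iff] at hs
  obtain ⟨x, hx⟩ := h.complete s (by
    intro ε hε
    obtain ⟨k, hk⟩ := hs (ε ^ p) (Real.rpow_pos_of_pos hε _)
    refine ⟨k, fun m hm n hn => ?_⟩
    have := hk m hm n hn
    rw [dist_eq_norm, hN] at this
    exact (Real.rpow_lt_rpow_iff (h.nonneg _) hε.le hp0).mp this)
  refine ⟨x, ?_⟩
  rw [Metric.tendsto_atTop]
  intro ε hε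
  obtain ⟨k, hk⟩ := hx (ε ^ (1 / p)) (Real.rpow_pos_of_pos hε _)
  refine ⟨k, fun n hn => ?_⟩
  have h3 := Real.rpow_lt_rpow (h.nonneg _) (hk n hn) hp0
  rw [← Real.rpow_mul hε.le, one_div_mul_cancel hp0.ne', Real.rpow_one] at h3
  rw [dist_eq_norm, hN]
  exact h3

end Pool.Agent.MP_259edd_an
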